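import Pool.Agent.Lib.MP_4e7804_co.Last.Fan

/-! Three near-edge polygons with pairwise intersecting ranges. -/

set_option autoImplicit false

namespace Pool.Agent.Lib.MP_4e7804_co.Last

open Real

variable {X Y Z : Fan}

/-- The arcs of the bottom vertex of `X` and of the top vertex of `Y`, `Y` having the later near
ray, meet only near the near rays. -/
theorem ut_inter (h : X.a < Y.a) {x : ℝ} (h1 : X.a < x) (h2 : x < X.r X.u) (h3 : Y.In Y.t x) :
    Y.l Y.t - 2 * π < x ∧ x < Y.a := by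
  have := X.ru_len
  have := Y.lt_len
  have := Y.rt
  have := X.a1
  have := X.tu
  have := X.lo
  have := Y.a2
  have := Y.tu
  have := Y.hi
  have := pi_pos
  rcases h3.cases (b := X.a) h1 (by linarith) (by linarith) (by linarith) with h | h | h
  · exfalso; linarith [h.1]
  · exact ⟨by linarith [h.1], by linarith [h.2]⟩
  · exfalso; linarith [h.1]

theorem near_out (h : ND X Y Z) (h12 : X.a < Y.a) (h23 : Y.a < Z.a) (s : Z.ι)
    (hs : Z.r s < X.a + 2 * π) : ¬ Btw (X.θ X.u) (Y.θ Y.t) (Z.θ s) := by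
  intro hb
  have e1 := X.lr X.u
  have e2 := X.lu
  have e3 := Y.lr Y.t
  have e4 := Y.rt
  have e5 := Y.lt_lt
  have e6 := X.ru_gt
  have e7 := X.lo
  have e8 := Y.hi
  have e9 := pi_pos
  have e10 := X.ru_len
  have e11 := Z.al s
  have e12 := Z.a2
  have e13 := Z.tu
  have e14 := Z.hi
  have e15 := X.a1
  have e16 := X.tu
  obtain ⟨x0, h1, h2⟩ := exists_between
    (show max X.a (Y.l Y.t - 2 * π) < min (X.r X.u) Y.a from
      max_lt (lt_min (by linarith) (by linarith)) (lt_min (by linarith) (by linarith)))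
  rw [max_lt_iff] at h1
  rw [lt_min_iff] at h2
  obtain ⟨x, hx1, hx2, hx3⟩ := h X.u Y.t s hb
    ⟨x0, X.in_of (by linarith [h1.1]) h2.1, Y.in_of_add (by linarith [h1.2]) (by linarith [h2.2])⟩
  obtain ⟨n, hn1, hn2⟩ := hx1.shift
  have hy2 := hx2.add n
  have hy3 := hx3.add n
  generalize x + 2 * π * n = y at hn1 hn2 hy2 hy3
  rw [e2] at hn1
  obtain ⟨h5, h6⟩ := ut_inter h12 hn1 hn2 hy2
  rcases hy3.cases (b := X.a) hn1 (by linarith) (by linarith) (by linarith) with h | h | h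
  · linarith [h.1]
  · linarith [h.2]
  · linarith [h.1]

theorem ss_out (h : SS X Y Z) (h12 : X.a < Y.a) (hT : Y.θ Y.t - π / 2 < X.a)
    (hU : Y.a < X.θ X.u + π / 2) (s : Z.ι) (hst : s ≠ Z.t) (hsu : s ≠ Z.u) :
    (Z.θ s < X.θ X.u ∧ Z.θ s < Y.θ Y.u) ∨ (X.θ X.t < Z.θ s ∧ Y.θ Y.t < Z.θ s) := by
  have e1 := X.lr X.u
  have e2 := X.lu
  have e3 := Y.lr Y.t
  have e4 := Y.rt
  have e5 := Y.lt_lt
  have e6 := X.ru_gt
  have e7 := X.lo
  have e8 := Y.hi
  have e9 := pi_pos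
  have e10 := X.ru_len
  have e15 := X.a1
  have e16 := X.tu
  have e17 := Y.a2
  have e18 := X.hi
  have e19 := Y.lo
  have e20 := Y.tu
  obtain ⟨x0, h1, h2⟩ := exists_between h12
  obtain ⟨x, hx1, hx2, hx3⟩ := h X.u Y.t s
    ⟨x0, X.in_of (by linarith) (by linarith), Y.in_of_add (by linarith) (by linarith)⟩
    (by
      intro x hx1 hx2
      obtain ⟨n, hn1, hn2⟩ := hx1.shift
      have hy2 := hx2.add n
      suffices hs : X.Pos (x + 2 * π * n) ∧ Y.Pos (x + 2 * π * n) from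
        ⟨hs.1.of_add, hs.2.of_add⟩
      generalize x + 2 * π * n = y at hn1 hn2 hy2
      rw [e2] at hn1
      obtain ⟨h5, h6⟩ := ut_inter h12 hn1 hn2 hy2
      exact ⟨Fan.pos_of (by linarith) (by linarith), Fan.pos_of (by linarith) (by linarith)⟩)
  obtain ⟨n, hn1, hn2⟩ := hx1.shift
  have hy2 := hx2.add n
  have hy3 := hx3.add n
  generalize x + 2 * π * n = y at hn1 hn2 hy2 hy3
  have f1 := Z.far1 s hst
  have f2 := Z.far2 s hsu
  have f3 := Z.top s
  have f4 := Z.bot s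
  have f5 := Z.lo
  have f6 := Z.hi
  rcases hy2.cases (by linarith) (by linarith) with h | h | h <;>
    rcases hy3.cases (by linarith) (by linarith) with h' | h' | h'
  · left; exact ⟨by linarith [h.2], by linarith [h'.2]⟩
  · exfalso; linarith [h'.2]
  · exfalso; linarith [h.2, h'.1]
  · exfalso; linarith [h.2]
  · exfalso; linarith [h.2]
  · exfalso; linarith [h.2]
  · exfalso; linarith [h'.2, h.1]
  · exfalso; linarith [h'.2]
  · right; exact ⟨by linarith [h.1], by linarith [h'.1]⟩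

theorem u_lt (h : Good X Y Z) (h12 : X.a < Y.a) (h23 : Y.a < Z.a)
    (hZX : Z.θ Z.u < X.θ X.t) (hZY : Z.θ Z.u < Y.θ Y.t) : Z.θ Z.u < X.θ X.u := by
  by_contra hcon
  have h1 : X.θ X.u < Z.θ Z.u := lt_of_le_of_ne (not_lt.1 hcon) (h.d13.ang _ _)
  have := Z.ru_len
  have := Z.a2
  have := X.a1
  exact near_out h.nd3 h12 h23 Z.u (by linarith) (Or.inl ⟨h1, hZY⟩)

theorem t_lt (h : Good X Y Z) (h12 : X.a < Y.a) (h23 : Y.a < Z.a)
    (hZX : Z.θ Z.u < X.θ X.t) (hYX : Y.θ Y.u < X.θ X.t) : Z.θ Z.t < X.θ X.t := by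
  have := u_lt h.mirror (show Z.mirror.a < Y.mirror.a from neg_lt_neg h23)
    (show Y.mirror.a < X.mirror.a from neg_lt_neg h12)
    (show -X.θ X.t < -Z.θ Z.u from neg_lt_neg hZX) (show -X.θ X.t < -Y.θ Y.u from neg_lt_neg hYX)
  exact neg_lt_neg_iff.1 this

/-- Far vertices of `Y`. -/
theorem far_Y (h : Good X Y Z) (h12 : X.a < Y.a) (h23 : Y.a < Z.a)
    (hU : Z.θ Z.u < X.θ X.u) (hT : Z.θ Z.t < X.θ X.t) (s : Y.ι) (hst : s ≠ Y.t) (hsu : s ≠ Y.u) :
    Y.θ s < Z.θ Z.u ∨ X.θ X.t < Y.θ s := by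
  have := X.a1
  have := Z.a2
  rcases ss_out h.ss2 (h12.trans h23) (by linarith) (by linarith) s hst hsu with h1 | h1
  · exact Or.inl h1.2
  · exact Or.inr h1.1

/-- Far vertices of `Z`. -/
theorem far_Z (h : Good X Y Z) (h12 : X.a < Y.a) (h23 : Y.a < Z.a)
    (hU : Z.θ Z.u < X.θ X.u) (hT : Z.θ Z.t < X.θ X.t) (s : Z.ι) (hst : s ≠ Z.t) (hsu : s ≠ Z.u) :
    Z.θ s < X.θ X.u := by
  by_contra hcon
  have h1 : X.θ X.u < Z.θ s := lt_of_le_of_ne (not_lt.1 hcon) (h.d13.ang _ _)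
  have e1 := Z.le_lt hst
  have e2 := Z.lt_lt
  have e3 := X.a1
  have e4 := Z.top s
  have e5 := Z.a2
  have e6 := Y.tu
  have h2 : Y.θ Y.t < Z.θ s := by
    by_contra hc
    have h3 : Z.θ s < Y.θ Y.t := lt_of_le_of_ne (not_lt.1 hc) (h.d23.ang _ _).symm
    exact near_out h.nd3 h12 h23 s (by linarith) (Or.inl ⟨h1, h3⟩)
  rcases ss_out h.ss3 h12 (by linarith) (by linarith) s hst hsu with h3 | h3
  · linarith [h3.2]
  · linarith [h3.1]

theorem far_X (h : Good X Y Z) (h12 : X.a < Y.a) (h23 : Y.a < Z.a)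
    (hU : Z.θ Z.u < X.θ X.u) (hT : Z.θ Z.t < X.θ X.t) (s : X.ι) (hst : s ≠ X.t) (hsu : s ≠ X.u) :
    Z.θ Z.t < X.θ s := by
  have := far_Z h.mirror (show Z.mirror.a < Y.mirror.a from neg_lt_neg h23)
    (show Y.mirror.a < X.mirror.a from neg_lt_neg h12)
    (show -X.θ X.t < -Z.θ Z.t from neg_lt_neg hT) (show -X.θ X.u < -Z.θ Z.u from neg_lt_neg hU)
    s hsu hst
  exact neg_lt_neg_iff.1 this

theorem stepP (h : Good X Y Z) (h12 : X.a < Y.a) (h23 : Y.a < Z.a)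
    (hU : Z.θ Z.u < X.θ X.u) (hT : Z.θ Z.t < X.θ X.t)
    (hX : ∀ s, s ≠ X.t → s ≠ X.u → Z.θ Z.t < X.θ s)
    (hY : ∀ s, s ≠ Y.t → s ≠ Y.u → Y.θ s < Z.θ Z.u ∨ X.θ X.t < Y.θ s)
    (c : ℝ) (c1 : X.θ X.u < c) (c2 : c < X.θ X.t) (c4 : c < Y.θ Y.t) (c6 : c < Z.θ Z.t)
    (L : Y.ι) (hL : Y.θ L < c) : ¬ X.r X.u < Y.r L := by
  intro hf
  have hLt : L ≠ Y.t := by
    rintro rfl
    linarith
  have e1 := Y.far1 L hLt
  have e2 := X.a1
  have e3 := Z.a2
  have e4 := Z.a1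
  have e5 := X.ru_gt
  have e6 := X.ru_len
  have e7 := Z.lt_len
  have e8 := Y.al L
  have e9 := Y.ra L
  have e10 := Y.lr L
  have e11 := Z.rt
  have e12 := X.lr X.u
  have e13 := X.lu
  have e14 := pi_pos
  have e15 := Y.len L
  obtain ⟨Q, hQ1, hQ2⟩ := X.cov' (Y.r L) (by linarith) (by linarith)
  have hQu : Q ≠ X.u := by
    rintro rfl
    linarith
  have hQ3 : Z.θ Z.t < X.θ Q := by
    by_cases hQt : Q = X.t
    · rw [hQt]; exact hT
    · exact hX Q hQt hQu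
  have hQ4 := X.ru_le hQu
  have hQ5 := X.ra Q
  have hf3 : Z.l Z.t < Y.r L := by
    obtain ⟨x0, h1, h2⟩ := exists_between (show max (X.l Q) (Y.l L) < Y.r L from
      max_lt hQ1 e10)
    rw [max_lt_iff] at h1
    obtain ⟨x, hx1, hx2, hx3⟩ := h.nd3 Q L Z.t (Or.inr ⟨by linarith, hQ3⟩)
      ⟨x0, X.in_of h1.1 (by linarith), Y.in_of h1.2 h2⟩
    obtain ⟨n, hn1, hn2⟩ := hx2.shift
    have hy1 := hx1.add n
    have hy3 := hx3.add n
    generalize x + 2 * π * n = y at hn1 hn2 hy1 hy3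
    have hy : X.r X.u < y := by
      rcases hy1.cases (b := Y.a) (by linarith) (by linarith) (by linarith) (by linarith)
        with h | h | h
      · linarith [h.1]
      · exfalso; linarith [h.2]
      · exfalso; linarith [h.1]
    rcases hy3.cases (b := Y.a) (by linarith) (by linarith) (by linarith) (by linarith)
      with h | h | h
    · linarith [h.1]
    · exfalso; linarith [h.2]
    · exfalso; linarith [h.1]
  have hLu : L ≠ Y.u := by
    rintro rfl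
    have := Y.ru_len
    linarith
  have hL3 : Y.θ L < Z.θ Z.u := by
    rcases hY L hLt hLu with h | h
    · exact h
    · exfalso; linarith
  obtain ⟨x0, h1, h2⟩ := exists_between (show max (Z.l Z.t) (Y.l L) < Y.r L from
      max_lt hf3 e10)
  rw [max_lt_iff] at h1
  obtain ⟨x, hx1, hx2, hx3⟩ := h.nd1 L Z.t X.u (Or.inl ⟨by linarith, by linarith⟩)
    ⟨x0, Y.in_of h1.2 h2, Z.in_of h1.1 (by linarith)⟩
  obtain ⟨n, hn1, hn2⟩ := hx1.shift
  have hy2 := hx2.add n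
  have hy3 := hx3.add n
  generalize x + 2 * π * n = y at hn1 hn2 hy2 hy3
  have hy : Z.l Z.t < y := by
    rcases hy2.cases (b := Y.a) (by linarith) (by linarith) (by linarith) (by linarith)
      with h | h | h
    · linarith [h.1]
    · exfalso; linarith [h.2]
    · exfalso; linarith [h.1]
  rcases hy3.cases (b := Y.a) (by linarith) (by linarith) (by linarith) (by linarith)
    with h | h | h
  · linarith [h.2]
  · linarith [h.2]
  · linarith [h.1]

/-- Case P. -/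
theorem caseP (h : Good X Y Z) (h12 : X.a < Y.a) (h23 : Y.a < Z.a)
    (i1 : X.θ X.u < Y.θ Y.t) (i2 : X.θ X.u < Z.θ Z.t) (i3 : Y.θ Y.u < X.θ X.t)
    (i4 : Y.θ Y.u < Z.θ Z.t) (i5 : Z.θ Z.u < X.θ X.t) (i6 : Z.θ Z.u < Y.θ Y.t) : False := by
  have hU := u_lt h h12 h23 i5 i6
  have hT := t_lt h h12 h23 i5 i3
  have hX := far_X h h12 h23 hU hT
  have hY := far_Y h h12 h23 hU hT
  have hZ := far_Z h h12 h23 hU hT
  obtain ⟨c, h1, h2⟩ := exists_between
    (show max (X.θ X.u) (Y.θ Y.u) < min (Z.θ Z.t) (Y.θ Y.t) from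
      max_lt (lt_min i2 i1) (lt_min i4 Y.tu))
  rw [max_lt_iff] at h1
  rw [lt_min_iff] at h2
  have hc : ∀ v, Y.θ v ≠ c := by
    intro v hv
    by_cases hvt : v = Y.t
    · rw [hvt] at hv; linarith [h2.2]
    by_cases hvu : v = Y.u
    · rw [hvu] at hv; linarith [h1.2]
    rcases hY v hvt hvu with h3 | h3 <;> linarith [h1.1, h2.1]
  obtain ⟨L, R, hL, hR, hLR, -, -⟩ := Y.crossing c h1.2 h2.2 hc
  have e1 := X.ru_len
  have e2 := Z.lt_len
  by_cases hf : X.r X.u < Y.r L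
  · exact stepP h h12 h23 hU hT hX hY c h1.1 (by linarith [h2.1]) h2.2 h2.1 L hL hf
  · refine stepP h.mirror (show Z.mirror.a < Y.mirror.a from neg_lt_neg h23)
      (show Y.mirror.a < X.mirror.a from neg_lt_neg h12)
      (show -X.θ X.t < -Z.θ Z.t from neg_lt_neg hT) (show -X.θ X.u < -Z.θ Z.u from neg_lt_neg hU)
      (fun s h1 h2 => show -X.θ X.u < -Z.θ s from neg_lt_neg (hZ s h2 h1))
      (fun s h1 h2 => ?_) (-c) (show -Z.θ Z.t < -c from neg_lt_neg h2.1)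
      (show -c < -Z.θ Z.u from neg_lt_neg (by linarith [h1.1]))
      (show -c < -Y.θ Y.u from neg_lt_neg h1.2)
      (show -c < -X.θ X.u from neg_lt_neg h1.1) R (show -Y.θ R < -c from neg_lt_neg hR) ?_
    · change -Y.θ s < -X.θ X.t ∨ -Z.θ Z.u < -Y.θ s
      rcases hY s h2 h1 with h3 | h3
      · right; exact neg_lt_neg h3
      · left; exact neg_lt_neg h3
    · change 2 * π - Z.l Z.t < 2 * π - Y.l R
      linarith

end Pool.Agent.Lib.MP_4e7804_co.Last
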