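import Pool.Agent.Lib.MP_4e7804_co.Last.Fan

/-! Three near-edge polygons, two of them with disjoint ranges. -/

set_option autoImplicit false

namespace Pool.Agent.Lib.MP_4e7804_co.Last

open Real

variable {X Y Z : Fan}

theorem z_zero {z : ℤ} (h1 : -(2 * π) < 2 * π * z) (h2 : 2 * π * z < 2 * π) : z = 0 := by
  have hp := pi_pos
  have h3 : (-1 : ℝ) < z := by nlinarith
  have h4 : (z : ℝ) < 1 := by nlinarith
  have h5 : (-1 : ℤ) < z := by exact_mod_cast h3
  have h6 : z < 1 := by exact_mod_cast h4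
  omega

/-- At a ray of `X` there is an open arc of `Y`. -/
theorem openArc (h : Dist X Y) (p : X.ι) (x : ℝ) (z : ℤ) (hz : X.r p = x + 2 * π * z) :
    ∃ q, Y.In q x := by
  obtain ⟨m, hm, -⟩ := existsUnique_add_zsmul_mem_Ico (two_pi_pos) x Y.a
  simp only [zsmul_eq_mul, Set.mem_Ico] at hm
  obtain ⟨q, hq1, hq2⟩ := Y.cov _ hm.1 hm.2
  refine ⟨q, m, lt_of_le_of_ne (by linarith) ?_, by linarith⟩
  intro hq
  obtain ⟨w, n, hw⟩ := Y.left_adj q
  refine h.ray p w (z - m - n) ?_
  rw [hz, hw, hq]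
  push_cast
  ring

/-- If `s` is between `q` and both neighbours of a ray of `X`, then the ray lies in the arc of
`s`. -/
theorem rayIn (h : ND X Y Z) (p p' : X.ι) (x : ℝ) (z z' : ℤ) (hz : X.r p = x + 2 * π * z)
    (hz' : X.l p' = x + 2 * π * z') (q : Y.ι) (hq : Y.In q x) (s : Z.ι)
    (hb : Btw (X.θ p) (Y.θ q) (Z.θ s)) (hb' : Btw (X.θ p') (Y.θ q) (Z.θ s)) : Z.In s x := by
  obtain ⟨n, hn1, hn2⟩ := hq.shift
  suffices hs : Z.In s (x + 2 * π * n) from hs.of_add
  have hz1 : X.r p = (x + 2 * π * n) + 2 * π * ((z - n : ℤ) : ℝ) := by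
    rw [hz]; push_cast; ring
  have hz1' : X.l p' = (x + 2 * π * n) + 2 * π * ((z' - n : ℤ) : ℝ) := by
    rw [hz']; push_cast; ring
  generalize x + 2 * π * n = y at hn1 hn2 hz1 hz1'
  generalize z - n = k at hz1
  generalize z' - n = k' at hz1'
  have e1 := X.lr p
  have e2 := X.len p
  have e3 := X.lr p'
  have e4 := X.len p'
  have e5 := Y.len q
  have e6 := Z.len s
  have e7 := pi_pos
  obtain ⟨x1, h1, h2, h3⟩ : ∃ x1, x1 < y ∧ Y.l q < x1 ∧ Z.In s x1 := by
    obtain ⟨x0, h1, h2⟩ := exists_between (show max (X.l p - 2 * π * k) (Y.l q) < y from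
      max_lt (by linarith) hn1)
    rw [max_lt_iff] at h1
    obtain ⟨x1, hx1, hx2, hx3⟩ := h p q s hb
      ⟨x0, ⟨k, by linarith [h1.1], by linarith⟩, Y.in_of h1.2 (by linarith)⟩
    obtain ⟨n, hn3, hn4⟩ := hx2.shift
    obtain ⟨m, hm1, hm2⟩ := hx1.add n
    have hy3 := hx3.add n
    generalize x1 + 2 * π * n = y1 at hn3 hn4 hm1 hm2 hy3
    have hmk : m - k = 0 := by
      apply z_zero <;> push_cast <;> linarith
    have : m = k := by omega
    rw [this] at hm1 hm2
    exact ⟨y1, by linarith, hn3, hy3⟩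
  obtain ⟨x2, h4, h5, h6⟩ : ∃ x2, y < x2 ∧ x2 < Y.r q ∧ Z.In s x2 := by
    obtain ⟨x0, h1, h2⟩ := exists_between (show y < min (X.r p' - 2 * π * k') (Y.r q) from
      lt_min (by linarith) hn2)
    rw [lt_min_iff] at h2
    obtain ⟨x1, hx1, hx2, hx3⟩ := h p' q s hb'
      ⟨x0, ⟨k', by linarith, by linarith [h2.1]⟩, Y.in_of (by linarith) h2.2⟩
    obtain ⟨n, hn3, hn4⟩ := hx2.shift
    obtain ⟨m, hm1, hm2⟩ := hx1.add n
    have hy3 := hx3.add n
    generalize x1 + 2 * π * n = y1 at hn3 hn4 hm1 hm2 hy3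
    have hmk : m - k' = 0 := by
      apply z_zero <;> push_cast <;> linarith
    have : m = k' := by omega
    rw [this] at hm1 hm2
    exact ⟨y1, by linarith, hn4, hy3⟩
  obtain ⟨z1, hz3, hz4⟩ := h3
  obtain ⟨z2, hz5, hz6⟩ := h6
  have hzz : z1 - z2 = 0 := by
    apply z_zero <;> push_cast <;> linarith
  have : z1 = z2 := by omega
  rw [← this] at hz5 hz6
  exact ⟨z1, by linarith, by linarith⟩

/-- No vertex of `Z` is between all vertices of `X` and all vertices of `Y`. -/
theorem star2 (h : ND X Y Z) (hd : Dist X Y) (s : Z.ι)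
    (hb : ∀ v w, Btw (X.θ v) (Y.θ w) (Z.θ s)) : False := by
  have hr : ∀ v, Z.In s (X.r v) := by
    intro v
    obtain ⟨q, hq⟩ := openArc hd v (X.r v) 0 (by simp)
    obtain ⟨w, n, hw⟩ := X.right_adj v
    exact rayIn h v w (X.r v) 0 n (by simp) hw q hq s (hb _ _) (hb _ _)
  have hl : ∀ v, Z.In s (X.l v) := by
    intro v
    obtain ⟨w, n, hw⟩ := X.left_adj v
    have := hr w
    rw [hw] at this
    exact this.of_add
  have e7 := pi_pos
  have e6 := Z.len s
  obtain ⟨n, hn1, hn2⟩ := hl X.u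
  rw [X.lu] at hn1 hn2
  obtain ⟨v, hv1, hv2⟩ := X.cov (Z.r s - 2 * π * n) (by linarith) (by linarith)
  have e1 := X.al v
  have e2 := X.len v
  obtain ⟨m, hm1, hm2⟩ := hl v
  have hmn : m - n = 0 := by
    apply z_zero <;> push_cast <;> linarith
  have hmn' : m = n := by omega
  rw [hmn'] at hm1 hm2
  obtain ⟨k, hk1, hk2⟩ := hr v
  have hkn : k - n = 0 := by
    apply z_zero <;> push_cast <;> linarith
  have hkn' : k = n := by omega
  rw [hkn'] at hk1 hk2
  linarith

/-- `Y` bridges the gap between the low polygon `X` and the high polygon `Z`, with far crossing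
`f`. -/
structure Bridge (X Y Z : Fan) (f : ℝ) : Prop where
  low : X.θ X.t < Z.θ Z.u
  uy : Y.θ Y.u < X.θ X.t
  ty : Z.θ Z.u < Y.θ Y.t
  f1 : Z.θ Z.u + π / 2 < f
  f2 : f < X.θ X.t + 3 * π / 2
  split : ∀ q, (Y.r q ≤ f ∧ Y.θ q < X.θ X.t) ∨ (f ≤ Y.l q ∧ Z.θ Z.u < Y.θ q)

theorem Bridge.mirror {f : ℝ} (h : Bridge X Y Z f) :
    Bridge Z.mirror Y.mirror X.mirror (2 * π - f) := by
  refine ⟨neg_lt_neg h.low, neg_lt_neg h.ty, neg_lt_neg h.uy, ?_, ?_, ?_⟩
  · change -X.θ X.t + π / 2 < 2 * π - f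
    linarith [h.f2]
  · change 2 * π - f < -Z.θ Z.u + 3 * π / 2
    linarith [h.f1]
  · intro q
    change (2 * π - Y.l q ≤ 2 * π - f ∧ -Y.θ q < -Z.θ Z.u) ∨
      (2 * π - f ≤ 2 * π - Y.r q ∧ -X.θ X.t < -Y.θ q)
    rcases h.split q with h1 | h1
    · right; exact ⟨by linarith [h1.1], by linarith [h1.2]⟩
    · left; exact ⟨by linarith [h1.1], by linarith [h1.2]⟩

theorem exists_bridge (h : Good X Y Z) (low : X.θ X.t < Z.θ Z.u) : ∃ f, Bridge X Y Z f := by
  have hs : ∀ s : Y.ι, Y.θ s < X.θ X.t ∨ Z.θ Z.u < Y.θ s := by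
    intro s
    by_contra hcon
    push Not at hcon
    refine star2 h.nd2 h.d13 s fun v w => Or.inl ⟨?_, ?_⟩
    · have h1 := X.top v
      have h2 := lt_of_le_of_ne hcon.1 (h.d12.ang X.t s)
      linarith
    · have h1 := Z.bot w
      have h2 := lt_of_le_of_ne hcon.2 (h.d23.ang s Z.u)
      linarith
  have uy : Y.θ Y.u < X.θ X.t := by
    rcases hs Y.u with h1 | h1
    · exact h1
    · exfalso
      refine star2 h.nd3 h.d12 Z.u fun v w => Or.inl ⟨?_, ?_⟩
      · linarith [X.top v]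
      · linarith [Y.bot w]
  have ty : Z.θ Z.u < Y.θ Y.t := by
    rcases hs Y.t with h1 | h1
    · exfalso
      refine star2 h.nd1 h.d23 X.t fun v w => Or.inl ⟨?_, ?_⟩
      · linarith [Y.top v]
      · linarith [Z.bot w]
    · exact h1
  obtain ⟨c, h1, h2⟩ := exists_between low
  have hc : ∀ v, Y.θ v ≠ c := by
    intro v hv
    rcases hs v with h3 | h3 <;> linarith
  obtain ⟨L, R, hL, hR, hLR, ha, hb⟩ := Y.crossing c (by linarith) (by linarith) hc
  have hLt : L ≠ Y.t := by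
    rintro rfl
    linarith
  have hRu : R ≠ Y.u := by
    rintro rfl
    linarith
  have e1 := Y.far1 L hLt
  have e2 := Y.far2 R hRu
  have hL' : Y.θ L < X.θ X.t := by
    rcases hs L with h3 | h3
    · exact h3
    · linarith
  have hR' : Z.θ Z.u < Y.θ R := by
    rcases hs R with h3 | h3
    · linarith
    · exact h3
  refine ⟨Y.r L, low, uy, ty, by linarith, by linarith, fun q => ?_⟩
  rcases lt_or_gt_of_ne (hc q) with h3 | h3
  · left
    refine ⟨ha q h3, ?_⟩
    rcases hs q with h4 | h4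
    · exact h4
    · linarith
  · right
    refine ⟨hb q h3, ?_⟩
    rcases hs q with h4 | h4
    · linarith
    · exact h4

theorem q_up {f : ℝ} (h : Good X Y Z) (hB : Bridge X Y Z f) (v : X.ι) (x : ℝ) (z : ℤ)
    (hz : X.r v = x + 2 * π * z) (h1 : f - 2 * π < x) (h2 : x < Y.a) : Z.In Z.u x := by
  obtain ⟨q, m, hm1, hm2⟩ := openArc h.d12 v x z hz
  have e1 := Y.al q
  have e2 := Y.ra q
  have e3 := hB.f1
  have e4 := Y.a2
  have e5 := hB.uy
  have e6 := hB.low
  have e7 := pi_pos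
  have hm : m - 1 = 0 := by
    apply z_zero <;> push_cast <;> linarith
  have hm' : m = 1 := by omega
  have hq : Y.In q x := ⟨m, hm1, hm2⟩
  rw [hm'] at hm1 hm2
  push_cast at hm1 hm2
  have hq' : Z.θ Z.u < Y.θ q := by
    rcases hB.split q with h3 | h3
    · linarith [h3.1]
    · exact h3.2
  obtain ⟨w, n, hw⟩ := X.right_adj v
  refine rayIn h.nd3 v w x z (n + z) hz (by rw [hw, hz]; push_cast; ring) q hq Z.u
    (Or.inl ⟨?_, hq'⟩) (Or.inl ⟨?_, hq'⟩)
  · linarith [X.top v]
  · linarith [X.top w]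

theorem q_dn {f : ℝ} (h : Good X Y Z) (hB : Bridge X Y Z f) (v : Z.ι) (x : ℝ) (z : ℤ)
    (hz : Z.r v = x + 2 * π * z) (h1 : Y.a < x) (h2 : x < f) : X.In X.t x := by
  obtain ⟨q, m, hm1, hm2⟩ := openArc h.d23.symm v x z hz
  have e1 := Y.al q
  have e2 := Y.ra q
  have e3 := hB.f2
  have e4 := Y.a1
  have e5 := hB.ty
  have e6 := hB.low
  have e7 := pi_pos
  have hm : m = 0 := by
    apply z_zero <;> linarith
  have hq : Y.In q x := ⟨m, hm1, hm2⟩
  rw [hm] at hm1 hm2
  push_cast at hm1 hm2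
  have hq' : Y.θ q < X.θ X.t := by
    rcases hB.split q with h3 | h3
    · exact h3.2
    · linarith [h3.1]
  obtain ⟨w, n, hw⟩ := Z.right_adj v
  refine rayIn h.nd1.symm v w x z (n + z) hz (by rw [hw, hz]; push_cast; ring) q hq X.t
    (Or.inr ⟨hq', ?_⟩) (Or.inr ⟨hq', ?_⟩)
  · linarith [Z.bot v]
  · linarith [Z.bot w]

theorem caseQ_ii {f : ℝ} (h : Good X Y Z) (hB : Bridge X Y Z f) (h1 : Z.a < X.a) : False := by
  have e1 := X.a1
  have e2 := X.a2
  have e3 := Y.a1
  have e4 := Y.a2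
  have e5 := Z.a1
  have e6 := Z.a2
  have e7 := pi_pos
  have e8 := X.tu
  have e9 := Z.tu
  have e10 := Z.ru_len
  have e11 := X.lt_len
  have e12 := Z.ru_gt
  have e13 := X.lt_lt
  have e14 := X.rt
  have e15 := Z.lu
  have e16 := hB.low
  have e17 := hB.uy
  have e18 := hB.ty
  have g1 : f ≤ Z.r Z.u := by
    by_contra hcon
    push Not at hcon
    have h2 := q_dn h hB Z.u (Z.r Z.u) 0 (by simp) (by linarith) hcon
    rcases h2.cases (b := Z.a) (by linarith) (by linarith) (by linarith) (by linarith)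
      with h | h | h
    · linarith [h.1]
    · linarith [h.2]
    · linarith [h.1]
  have g2 : X.l X.t ≤ f := by
    by_contra hcon
    push Not at hcon
    obtain ⟨w, n, hw⟩ := X.left_adj X.t
    have h2 := q_up h hB w (X.l X.t - 2 * π) (n + 1) (by rw [hw]; push_cast; ring)
      (by linarith) (by linarith)
    rcases h2.cases (b := X.a - 2 * π) (by linarith) (by linarith) (by linarith) (by linarith)
      with h | h | h
    · linarith [h.1]
    · linarith [h.2]
    · linarith [h.1]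
  linarith

theorem caseQ_i {f : ℝ} (h : Good X Y Z) (hB : Bridge X Y Z f) (h1 : X.a < Y.a) : False := by
  have e1 := X.a1
  have e2 := X.a2
  have e3 := Y.a1
  have e4 := Y.a2
  have e5 := Z.a1
  have e6 := Z.a2
  have e7 := pi_pos
  have e8 := X.tu
  have e9 := Z.tu
  have e10 := Z.ru_len
  have e11 := X.lt_len
  have e12 := Z.ru_gt
  have e13 := X.lt_lt
  have e14 := X.rt
  have e15 := Z.lu
  have e16 := hB.low
  have e17 := hB.uy
  have e18 := hB.ty
  have e19 := hB.f1
  have e20 := hB.f2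
  have e21 := X.hi
  have e22 := X.lo
  have e23 := Z.hi
  have e24 := Z.lo
  have e25 := Y.hi
  have e26 := Y.lo
  have e27 := Y.lu
  have e28 := Y.lr Y.u
  have e29 := Y.ru_len
  have e30 := Y.ru_gt
  have e31 := Y.tu
  have hal := q_up h hB X.t X.a 1 (by rw [e14]; push_cast; ring) (by linarith) h1
  rcases hal.cases (b := -π) (by linarith) (by linarith) (by linarith) (by linarith)
    with h2 | h2 | h2
  · rw [e15] at h2
    obtain ⟨x0, h3, h4⟩ := exists_between (show Y.a < min (Y.r Y.u) (Z.r Z.u) from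
      lt_min (by linarith) (by linarith))
    rw [lt_min_iff] at h4
    obtain ⟨x, hx1, hx2, hx3⟩ := h.nd1 Y.u Z.u X.t (Or.inl ⟨e17, e16⟩)
      ⟨x0, Y.in_of (by linarith) h4.1, Z.in_of (by linarith [h2.1]) h4.2⟩
    obtain ⟨n, hn1, hn2⟩ := hx1.shift
    have hy2 := hx2.add n
    have hy3 := hx3.add n
    generalize x + 2 * π * n = y at hn1 hn2 hy2 hy3
    have hy : y < Z.r Z.u := by
      rcases hy2.cases (b := Y.a) (by linarith) (by linarith) (by linarith) (by linarith)
        with h | h | h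
      · linarith [h.2]
      · exfalso; linarith [h.2, h2.1]
      · exfalso; linarith [h.1]
    rcases hy3.cases (b := Y.a) (by linarith) (by linarith) (by linarith) (by linarith)
      with h | h | h
    · linarith [h.1, h2.1]
    · linarith [h.2]
    · linarith [h.1]
  · have h3 : X.a + π < Z.a := by linarith [h2.2]
    have hah := q_dn h hB Z.t Z.a 1 (by rw [Z.rt]; push_cast; ring) (by linarith) (by linarith)
    have h4 : X.l X.t < Z.a := by
      rcases hah.cases (b := -π) (by linarith) (by linarith) (by linarith) (by linarith)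
        with h | h | h
      · exact h.1
      · exfalso; linarith [h.2]
      · exfalso; linarith [h.1]
    obtain ⟨q, hq⟩ := openArc h.d12 X.t X.a 1 (by rw [e14]; push_cast; ring)
    have q1 := Y.al q
    have q2 := Y.ra q
    obtain ⟨q3, q4⟩ : Y.l q < X.a + 2 * π ∧ X.a + 2 * π < Y.r q := by
      obtain ⟨m, hm1, hm2⟩ := hq
      have hm : m - 1 = 0 := by
        apply z_zero <;> push_cast <;> linarith
      have hm' : m = 1 := by omega
      rw [hm'] at hm1 hm2
      push_cast at hm1 hm2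
      exact ⟨by linarith, by linarith⟩
    obtain ⟨q5, q6⟩ : f ≤ Y.l q ∧ Z.θ Z.u < Y.θ q := by
      rcases hB.split q with h5 | h5
      · linarith [h5.1]
      · exact h5
    have hZt := Z.lr Z.t
    have hZrt := Z.rt
    have hZut := Z.ru_le Z.ne_tu
    have hXt := X.lr X.t
    obtain ⟨x, hx1, hx2, hx3⟩ : ∃ x, X.In X.t x ∧ Z.In Z.t x ∧ Y.In q x := by
      rcases lt_or_gt_of_ne (h.d23.ang q Z.t) with h5 | h5
      · obtain ⟨x0, h6, h7⟩ := exists_between (show max (X.l X.t) (Z.l Z.t - 2 * π) < Z.a from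
          max_lt h4 (by linarith))
        rw [max_lt_iff] at h6
        exact h.nd2 X.t Z.t q (Or.inl ⟨by linarith, h5⟩)
          ⟨x0, X.in_of h6.1 (by linarith), Z.in_of_add (by linarith [h6.2]) (by linarith)⟩
      · obtain ⟨x0, h6, h7⟩ := exists_between
          (show max (X.l X.t) (Y.l q) < X.a + 2 * π from max_lt (by linarith) q3)
        rw [max_lt_iff] at h6
        obtain ⟨x, hx1, hx2, hx3⟩ := h.nd3 X.t q Z.t (Or.inl ⟨by linarith, h5⟩)
          ⟨x0, X.in_of h6.1 (by linarith), Y.in_of h6.2 (by linarith)⟩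
        exact ⟨x, hx1, hx3, hx2⟩
    obtain ⟨n, hn1, hn2⟩ := hx2.shift
    have hy1 := (hx1.add n).add (-1)
    have hy3 := (hx3.add n).add (-1)
    generalize x + 2 * π * n = y at hn1 hn2 hy1 hy3
    push_cast at hy1 hy3
    have hy : X.l X.t < y - 2 * π := by
      rcases hy1.cases (b := X.a) (by linarith [h2.2]) (by linarith) (by linarith) (by linarith)
        with h | h | h
      · linarith [h.1]
      · exfalso; linarith [h.2, h2.2]
      · exfalso; linarith [h.1]
    rcases hy3.cases (b := X.a) (by linarith [h2.2]) (by linarith) (by linarith) (by linarith)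
      with h | h | h
    · linarith [h.1]
    · linarith [h.2]
    · linarith [h.1]
  · rw [e15] at h2
    linarith [h2.1]

/-- Case Q. -/
theorem caseQ (h : Good X Y Z) (low : X.θ X.t < Z.θ Z.u) : False := by
  obtain ⟨f, hB⟩ := exists_bridge h low
  rcases lt_or_ge X.a Y.a with h1 | h1
  · exact caseQ_i h hB h1
  rcases lt_or_ge Y.a Z.a with h2 | h2
  · exact caseQ_i h.mirror hB.mirror (show Z.mirror.a < Y.mirror.a from neg_lt_neg h2)
  · refine caseQ_ii h hB (lt_of_le_of_ne (h2.trans h1) fun h3 => ?_)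
    refine h.d13.ray X.t Z.t 0 ?_
    rw [X.rt, Z.rt, h3]
    push_cast
    ring

end Pool.Agent.Lib.MP_4e7804_co.Last
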