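import Pool.Agent.Lib.MP_4e7804_co.Last.CaseP
import Pool.Agent.Lib.MP_4e7804_co.Last.CaseQ

/-! There are no three near-edge polygons without empty off-diagonal mixed triples. -/

set_option autoImplicit false

namespace Pool.Agent.Lib.MP_4e7804_co.Last

open Real

variable {X Y Z : Fan}

theorem Dist.a_ne (h : Dist X Y) : X.a ≠ Y.a := by
  intro h3
  refine h.ray X.t Y.t 0 ?_
  rw [X.rt, Y.rt, h3]
  push_cast
  ring

theorem model_false (h : Good X Y Z) : False := by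
  rcases lt_or_gt_of_ne (h.d12.ang X.t Y.u) with c1 | c1
  · exact caseQ h.swap23 c1
  rcases lt_or_gt_of_ne (h.d12.ang X.u Y.t) with c2 | c2
  swap
  · exact caseQ h.swap12.swap23 c2
  rcases lt_or_gt_of_ne (h.d13.ang X.t Z.u) with c3 | c3
  · exact caseQ h c3
  rcases lt_or_gt_of_ne (h.d13.ang X.u Z.t) with c4 | c4
  swap
  · exact caseQ h.swap23.swap12.swap23 c4
  rcases lt_or_gt_of_ne (h.d23.ang Y.t Z.u) with c5 | c5
  · exact caseQ h.swap12 c5
  rcases lt_or_gt_of_ne (h.d23.ang Y.u Z.t) with c6 | c6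
  swap
  · exact caseQ h.swap23.swap12 c6
  rcases lt_or_gt_of_ne h.d12.a_ne with a1 | a1 <;>
    rcases lt_or_gt_of_ne h.d13.a_ne with a2 | a2 <;>
    rcases lt_or_gt_of_ne h.d23.a_ne with a3 | a3
  · exact caseP h a1 a3 c2 c4 c1 c6 c3 c5
  · exact caseP h.swap23 a2 a3 c4 c2 c3 c5 c1 c6
  · linarith
  · exact caseP h.swap23.swap12 a2 a1 c3 c5 c4 c2 c6 c1
  · exact caseP h.swap12 a1 a2 c1 c6 c2 c4 c5 c3
  · linarith
  · exact caseP h.swap12.swap23 a3 a2 c6 c1 c5 c3 c2 c4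
  · exact caseP h.swap23.swap12.swap23 a3 a1 c5 c3 c6 c1 c4 c2

end Pool.Agent.Lib.MP_4e7804_co.Last
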