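import Pool.Agent.Lib.MP_4e7804_co.Last.Near
import Pool.Agent.Lib.MP_4e7804_co.Last.Model

/-! Two fans have a common arc in every interval longer than `π`; near vertices. -/

set_option autoImplicit false

namespace Pool.Agent.Lib.MP_4e7804_co.Last

open Real

theorem Fan0.r_not_in (F : Fan0) (p v : F.ι) : ¬ F.In v (F.r p) := by
  rintro ⟨z, h1, h2⟩
  have e1 := F.al v
  have e2 := F.ra v
  have e3 := F.al p
  have e4 := F.ra p
  have e5 := F.lr p
  have e6 := F.len v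
  have e7 := pi_pos
  have hz : z = 0 := by
    apply z_zero
    · by_contra hcon
      push Not at hcon
      linarith
    · linarith
  rw [hz] at h1 h2
  push_cast at h1 h2
  by_cases hv : v = p
  · rw [hv] at h2
    linarith
  · rcases F.dis v p hv with h | h <;> linarith

theorem easy1 (F G : Fan0) (β γ : ℝ) (h : β + π < γ) (v : F.ι) (m : ℤ)
    (h1 : F.l v ≤ β + 2 * π * m) (h2 : β + 2 * π * m < F.r v) (w : G.ι) (n : ℤ)
    (h3 : G.l w ≤ β + 2 * π * n) (h4 : β + 2 * π * n < G.r w)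
    (h5 : F.r v - 2 * π * m < G.r w - 2 * π * n) :
    ∃ p q, (∃ x, F.In p x ∧ G.In q x) ∧
      ∀ x, F.In p x → G.In q x → ∃ z : ℤ, β < x + 2 * π * z ∧ x + 2 * π * z < γ := by
  obtain ⟨p, k, hk⟩ := F.right_adj v
  have e1 := F.lr p
  have e2 := F.len p
  have e3 := G.len w
  have e4 := pi_pos
  refine ⟨p, w, ?_, ?_⟩
  · obtain ⟨x, h6, h7⟩ := exists_between
      (show F.r v - 2 * π * m < min (F.r p - 2 * π * ((m + k : ℤ) : ℝ)) (G.r w - 2 * π * n) from
        lt_min (by push_cast; linarith) h5)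
    rw [lt_min_iff] at h7
    refine ⟨x, ⟨m + k, ?_, by linarith [h7.1]⟩, ⟨n, by linarith, by linarith [h7.2]⟩⟩
    rw [hk]
    push_cast
    linarith
  · rintro x ⟨z1, h6, h7⟩ ⟨z2, h8, h9⟩
    rw [hk] at h6 e2
    have hz : z2 - n - (z1 - (m + k)) = 0 := by
      apply z_zero <;> push_cast <;> linarith
    have hz' : z2 = z1 - (m + k) + n := by omega
    rw [hz'] at h8 h9
    refine ⟨z1 - (m + k), ?_, ?_⟩
    · push_cast
      linarith
    · push_cast at h9 ⊢
      linarith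

theorem easy (F G : Fan0) (hray : ∀ p q, ∀ z : ℤ, F.r p ≠ G.r q + 2 * π * z) (β γ : ℝ)
    (h : β + π < γ) : ∃ p q, (∃ x, F.In p x ∧ G.In q x) ∧
      ∀ x, F.In p x → G.In q x → ∃ z : ℤ, β < x + 2 * π * z ∧ x + 2 * π * z < γ := by
  obtain ⟨m, hm, -⟩ := existsUnique_add_zsmul_mem_Ico (two_pi_pos) β F.a
  simp only [zsmul_eq_mul, Set.mem_Ico] at hm
  obtain ⟨n, hn, -⟩ := existsUnique_add_zsmul_mem_Ico (two_pi_pos) β G.a
  simp only [zsmul_eq_mul, Set.mem_Ico] at hn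
  have hm' : β + m * (2 * π) = β + 2 * π * m := by ring
  have hn' : β + n * (2 * π) = β + 2 * π * n := by ring
  rw [hm'] at hm
  rw [hn'] at hn
  obtain ⟨v, h1, h2⟩ := F.cov _ hm.1 hm.2
  obtain ⟨w, h3, h4⟩ := G.cov _ hn.1 hn.2
  rcases lt_trichotomy (F.r v - 2 * π * m) (G.r w - 2 * π * n) with h5 | h5 | h5
  · exact easy1 F G β γ h v m h1 h2 w n h3 h4 h5
  · exfalso
    refine hray v w (m - n) ?_
    push_cast
    linarith
  · obtain ⟨p, q, ⟨x, hx1, hx2⟩, hx⟩ := easy1 G F β γ h w n h3 h4 v m h1 h2 h5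
    exact ⟨q, p, ⟨x, hx2, hx1⟩, fun y hy1 hy2 => hx y hy2 hy1⟩

variable {P : Pol} {t u : P.ι}

theorem Pol.no_zero (ht : ∀ v, P.θ v ≤ P.θ t) (hu : ∀ v, P.θ u ≤ P.θ v) (s : P.ι) (hst : s ≠ t)
    (hsu : s ≠ u) (x : ℝ) (hx : P.Mn s x) : P.h s x ≠ 0 := by
  intro h0
  have h1 := hx t (Ne.symm hst)
  have h2 := hx u (Ne.symm hsu)
  rw [h0] at h1 h2
  have ps := P.pos s
  have pt := P.pos t
  have pu := P.pos u
  have h7 : cos (x - P.θ s) = 0 := by
    rcases mul_eq_zero.1 h0 with h | h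
    · exact absurd h ps.ne'
    · exact h
  have h8 : 0 < cos (x - P.θ t) := pos_of_mul_pos_right h1 pt.le
  have h9 : 0 < cos (x - P.θ u) := pos_of_mul_pos_right h2 pu.le
  have e1 : P.θ s < P.θ t := lt_of_le_of_ne (ht s) fun h => hst (P.inj _ _ h)
  have e2 : P.θ u < P.θ s := lt_of_le_of_ne (hu s) fun h => hsu (P.inj _ _ h).symm
  have e3 := P.hi t
  have e4 := P.lo u
  have e5 := P.hi s
  have e6 := P.lo s
  have s1 : 0 < sin (P.θ s - P.θ u) := sin_pos_of_pos_of_lt_pi (by linarith) (by linarith)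
  have s2 : 0 < sin (P.θ t - P.θ s) := sin_pos_of_pos_of_lt_pi (by linarith) (by linarith)
  have h10 := trig5 x (P.θ s) (P.θ t) (P.θ u)
  rw [h7, mul_zero] at h10
  have := mul_pos s1 h8
  have := mul_pos s2 h9
  linarith

theorem Pol.no_cross (ht : ∀ v, P.θ v ≤ P.θ t) (hu : ∀ v, P.θ u ≤ P.θ v) (s : P.ι) (hst : s ≠ t)
    (hsu : s ≠ u) (x y : ℝ) (hx : P.Mn s x) (hy : P.Mn s y) (hxy : x < y) (hxy' : y < x + π)
    (h1 : P.h s x * P.h s y ≤ 0) : False := by
  have hx0 := Pol.no_zero ht hu s hst hsu x hx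
  have hy0 := Pol.no_zero ht hu s hst hsu y hy
  have hc : ContinuousOn (P.h s) (Set.Icc x y) := (P.h_cont s).continuousOn
  obtain ⟨z, hz, hz0⟩ : ∃ z ∈ Set.Icc x y, P.h s z = 0 := by
    rcases lt_or_gt_of_ne hx0 with h | h
    · have h2 : 0 ≤ P.h s y := by
        by_contra hcon
        push Not at hcon
        have := mul_pos_of_neg_of_neg h hcon
        linarith
      exact intermediate_value_Icc hxy.le hc ⟨h.le, h2⟩
    · have h2 : P.h s y ≤ 0 := by
        by_contra hcon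
        push Not at hcon
        have := mul_pos h hcon
        linarith
      exact intermediate_value_Icc' hxy.le hc ⟨h2, h.le⟩
  have h3 : x < z := lt_of_le_of_ne hz.1 (by rintro rfl; exact hx0 hz0)
  have h4 : z < y := lt_of_le_of_ne hz.2 (by rintro rfl; exact hy0 hz0)
  exact Pol.no_zero ht hu s hst hsu z (hx.between hy h3 h4 hxy') hz0

/-- A vertex other than top and bottom is near or far. -/
theorem Pol.near_vertex (ht : ∀ v, P.θ v ≤ P.θ t) (hu : ∀ v, P.θ u ≤ P.θ v) (s : P.ι)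
    (hst : s ≠ t) (hsu : s ≠ u) (x y : ℝ) (hx : P.Mn s x) (hy : P.Mn s y) (h1 : 0 < P.h s x) :
    0 < P.h s y := by
  obtain ⟨m, hm, -⟩ := existsUnique_add_zsmul_mem_Ico (two_pi_pos) y x
  simp only [zsmul_eq_mul, Set.mem_Ico] at hm
  have hm' : y + m * (2 * π) = y + 2 * π * m := by ring
  rw [hm'] at hm
  have hy' := (P.mn_add s y m).2 hy
  rw [← P.h_add s y m]
  generalize y + 2 * π * m = y' at hm hy'
  by_contra hcon
  push Not at hcon
  have hne : x ≠ y' := by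
    rintro rfl
    linarith
  have hlt : x < y' := lt_of_le_of_ne hm.1 hne
  rcases lt_trichotomy y' (x + π) with h | h | h
  · exact Pol.no_cross ht hu s hst hsu x y' hx hy' hlt h
      (mul_nonpos_of_nonneg_of_nonpos h1.le hcon)
  · rw [h] at hy'
    exact hx.not_pi hy'
  · have hx2 := (P.mn_add s x 1).2 hx
    have hx3 : P.h s (x + 2 * π * ((1 : ℤ) : ℝ)) = P.h s x := P.h_add s x 1
    refine Pol.no_cross ht hu s hst hsu y' (x + 2 * π * ((1 : ℤ) : ℝ)) hy' hx2
      (by push_cast; linarith) (by push_cast; linarith) ?_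
    rw [hx3]
    exact mul_nonpos_of_nonpos_of_nonneg hcon h1.le

end Pool.Agent.Lib.MP_4e7804_co.Last
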