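import Mathlib

/-! Fans of polygons in the plane, as arcs of angles; the near-edge polygons of the last chamber.

All angles are real numbers, a fan is given on the window `[a, a + 2π]`, `a` one of its rays. -/

set_option autoImplicit false

namespace Pool.Agent.Lib.MP_4e7804_co.Last

open Real

/-- A complete fan of the plane: the arcs `(l v, r v)` of its cones, all inside the window
`[a, a + 2π]`, `a` a ray. -/
structure Fan0 where
  ι : Type
  fin : Finite ι
  l : ι → ℝ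
  r : ι → ℝ
  a : ℝ
  lr : ∀ v, l v < r v
  len : ∀ v, r v ≤ l v + π
  al : ∀ v, a ≤ l v
  ra : ∀ v, r v ≤ a + 2 * π
  dis : ∀ v w, v ≠ w → r v ≤ l w ∨ r w ≤ l v
  cov : ∀ x, a ≤ x → x < a + 2 * π → ∃ v, l v ≤ x ∧ x < r v
  cov' : ∀ x, a < x → x ≤ a + 2 * π → ∃ v, l v < x ∧ x ≤ r v

/-- The angle `x` lies in the open arc of `v` (modulo `2π`). -/
def Fan0.In (F : Fan0) (v : F.ι) (x : ℝ) : Prop :=
  ∃ z : ℤ, F.l v < x + 2 * π * z ∧ x + 2 * π * z < F.r v

/-- The fan of a near-edge polygon: the vertices `v` have angular position `θ v`, `t` and `u` are the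
top and bottom vertices, the window starts at the near ray `a`, which has `t` on its left and `u` on
its right; the arcs are ordered as the angles. -/
structure Fan extends Fan0 where
  θ : ι → ℝ
  t : ι
  u : ι
  lu : l u = a
  rt : r t = a + 2 * π
  ord : ∀ v w, θ v < θ w → r v ≤ l w
  inj : ∀ v w, θ v = θ w → v = w
  top : ∀ v, θ v ≤ θ t
  bot : ∀ v, θ u ≤ θ v
  tu : θ u < θ t
  lo : -(π / 2) < θ u
  hi : θ t < π / 2
  a1 : θ t - π / 2 < a
  a2 : a < θ u + π / 2
  far1 : ∀ v, v ≠ t → r v < θ v + 3 * π / 2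
  far2 : ∀ v, v ≠ u → θ v + π / 2 < l v

/-- The sign condition `ψ > 0` at the angle `x`. -/
def Fan.Pos (F : Fan) (x : ℝ) : Prop :=
  ∃ z : ℤ, F.θ F.t - π / 2 < x + 2 * π * z ∧ x + 2 * π * z < F.θ F.u + π / 2

/-- `c` lies strictly between `a` and `b`. -/
def Btw (a b c : ℝ) : Prop := (a < c ∧ c < b) ∨ (b < c ∧ c < a)

/-- No empty mixed triple `(p, q; s')` with `s` between `p` and `q`. -/
def ND (X Y Z : Fan) : Prop :=
  ∀ (p : X.ι) (q : Y.ι) (s : Z.ι), Btw (X.θ p) (Y.θ q) (Z.θ s) →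
    (∃ x, X.In p x ∧ Y.In q x) → ∃ x, X.In p x ∧ Y.In q x ∧ Z.In s x

/-- No empty mixed triple `(p, q; s')` by the signs. -/
def SS (X Y Z : Fan) : Prop :=
  ∀ (p : X.ι) (q : Y.ι) (s : Z.ι),
    (∃ x, X.In p x ∧ Y.In q x) → (∀ x, X.In p x → Y.In q x → X.Pos x ∧ Y.Pos x) →
      ∃ x, Z.In s x ∧ X.Pos x ∧ Y.Pos x

/-- The two fans have different rays (modulo `2π`) and different angles. -/
structure Dist (X Y : Fan) : Prop where
  ang : ∀ p q, X.θ p ≠ Y.θ q
  ray : ∀ p q, ∀ z : ℤ, X.r p ≠ Y.r q + 2 * π * z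

/-- All conditions for three near-edge polygons. -/
structure Good (X Y Z : Fan) : Prop where
  nd1 : ND Y Z X
  nd2 : ND X Z Y
  nd3 : ND X Y Z
  ss1 : SS Y Z X
  ss2 : SS X Z Y
  ss3 : SS X Y Z
  d12 : Dist X Y
  d13 : Dist X Z
  d23 : Dist Y Z

theorem Btw.symm {a b c : ℝ} (h : Btw a b c) : Btw b a c := by
  rcases h with h | h
  · exact Or.inr h
  · exact Or.inl h

theorem ND.symm {X Y Z : Fan} (h : ND X Y Z) : ND Y X Z := by
  intro p q s hb hx
  obtain ⟨x, h1, h2⟩ := hx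
  obtain ⟨y, h3, h4, h5⟩ := h q p s hb.symm ⟨x, h2, h1⟩
  exact ⟨y, h4, h3, h5⟩

theorem SS.symm {X Y Z : Fan} (h : SS X Y Z) : SS Y X Z := by
  intro p q s hx hp
  obtain ⟨x, h1, h2⟩ := hx
  obtain ⟨y, h3, h4, h5⟩ := h q p s ⟨x, h2, h1⟩ (fun x hx hx' => (hp x hx' hx).symm)
  exact ⟨y, h3, h5, h4⟩

theorem Dist.symm {X Y : Fan} (h : Dist X Y) : Dist Y X := by
  refine ⟨fun p q => (h.ang q p).symm, fun p q z hz => h.ray q p (-z) ?_⟩
  push_cast
  linarith

theorem Good.swap12 {X Y Z : Fan} (h : Good X Y Z) : Good Y X Z :=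
  ⟨h.nd2, h.nd1, h.nd3.symm, h.ss2, h.ss1, h.ss3.symm, h.d12.symm, h.d23, h.d13⟩

theorem Good.swap23 {X Y Z : Fan} (h : Good X Y Z) : Good X Z Y :=
  ⟨h.nd1.symm, h.nd3, h.nd2, h.ss1.symm, h.ss3, h.ss2, h.d13, h.d12, h.d23.symm⟩

/-! Periodicity. -/

theorem Fan0.In.add {F : Fan0} {v : F.ι} {x : ℝ} (h : F.In v x) (n : ℤ) :
    F.In v (x + 2 * π * n) := by
  obtain ⟨z, h1, h2⟩ := h
  refine ⟨z - n, ?_, ?_⟩ <;> push_cast <;> linarith

theorem Fan0.In.of_add {F : Fan0} {v : F.ι} {x : ℝ} {n : ℤ} (h : F.In v (x + 2 * π * n)) :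
    F.In v x := by
  have := h.add (-n)
  push_cast at this
  convert this using 1
  ring

theorem Fan.Pos.add {F : Fan} {x : ℝ} (h : F.Pos x) (n : ℤ) : F.Pos (x + 2 * π * n) := by
  obtain ⟨z, h1, h2⟩ := h
  refine ⟨z - n, ?_, ?_⟩ <;> push_cast <;> linarith

theorem Fan.Pos.of_add {F : Fan} {x : ℝ} {n : ℤ} (h : F.Pos (x + 2 * π * n)) : F.Pos x := by
  have := h.add (-n)
  push_cast at this
  convert this using 1
  ring

theorem Fan0.in_of {F : Fan0} {v : F.ι} {x : ℝ} (h1 : F.l v < x) (h2 : x < F.r v) : F.In v x :=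
  ⟨0, by simpa using h1, by simpa using h2⟩

theorem Fan0.in_of_add {F : Fan0} {v : F.ι} {x : ℝ} (h1 : F.l v < x + 2 * π)
    (h2 : x + 2 * π < F.r v) : F.In v x :=
  ⟨1, by simpa using h1, by simpa using h2⟩

theorem Fan0.in_of_sub {F : Fan0} {v : F.ι} {x : ℝ} (h1 : F.l v < x - 2 * π)
    (h2 : x - 2 * π < F.r v) : F.In v x :=
  ⟨-1, by push_cast; linarith, by push_cast; linarith⟩

theorem z_cases {z : ℤ} (h1 : -(4 * π) < 2 * π * z) (h2 : 2 * π * z < 4 * π) :
    z = 0 ∨ z = 1 ∨ z = -1 := by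
  have hp := pi_pos
  have h3 : (-2 : ℝ) < z := by nlinarith
  have h4 : (z : ℝ) < 2 := by nlinarith
  have h5 : (-2 : ℤ) < z := by exact_mod_cast h3
  have h6 : z < 2 := by exact_mod_cast h4
  omega

/-- The three possible positions of an angle of a window which is near to that of `F`. -/
theorem Fan0.In.cases {F : Fan0} {v : F.ι} {x b : ℝ} (h : F.In v x) (h1 : b < x)
    (h2 : x < b + 2 * π) (h3 : F.a < b + 2 * π) (h4 : b < F.a + 2 * π) :
    (F.l v < x ∧ x < F.r v) ∨ (F.l v < x + 2 * π ∧ x + 2 * π < F.r v) ∨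
      (F.l v < x - 2 * π ∧ x - 2 * π < F.r v) := by
  obtain ⟨z, hz1, hz2⟩ := h
  have := F.al v
  have := F.ra v
  rcases z_cases (z := z) (by linarith) (by linarith) with rfl | rfl | rfl
  · left
    push_cast at hz1 hz2
    exact ⟨by linarith, by linarith⟩
  · right; left
    push_cast at hz1 hz2
    exact ⟨by linarith, by linarith⟩
  · right; right
    push_cast at hz1 hz2
    exact ⟨by linarith, by linarith⟩

/-- An angle of the arc may be moved into the window. -/
theorem Fan0.In.shift {F : Fan0} {v : F.ι} {x : ℝ} (h : F.In v x) :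
    ∃ n : ℤ, F.l v < x + 2 * π * n ∧ x + 2 * π * n < F.r v := h

theorem Fan.Pos.cases {F : Fan} {x : ℝ} (h : F.Pos x) (h1 : -(3 * π) < x) (h2 : x < 3 * π) :
    (F.θ F.t - π / 2 < x ∧ x < F.θ F.u + π / 2) ∨
      (F.θ F.t - π / 2 < x + 2 * π ∧ x + 2 * π < F.θ F.u + π / 2) ∨
      (F.θ F.t - π / 2 < x - 2 * π ∧ x - 2 * π < F.θ F.u + π / 2) := by
  obtain ⟨z, hz1, hz2⟩ := h
  have := F.lo
  have := F.hi
  have := F.tu
  rcases z_cases (z := z) (by linarith) (by linarith) with rfl | rfl | rfl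
  · left
    push_cast at hz1 hz2
    exact ⟨by linarith, by linarith⟩
  · right; left
    push_cast at hz1 hz2
    exact ⟨by linarith, by linarith⟩
  · right; right
    push_cast at hz1 hz2
    exact ⟨by linarith, by linarith⟩

theorem Fan.pos_of {F : Fan} {x : ℝ} (h1 : F.θ F.t - π / 2 < x) (h2 : x < F.θ F.u + π / 2) :
    F.Pos x :=
  ⟨0, by simpa using h1, by simpa using h2⟩

/-! Basic facts. -/

theorem Fan.ne_tu (F : Fan) : F.t ≠ F.u := by
  intro h
  have := F.tu
  rw [h] at this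
  exact lt_irrefl _ this

theorem Fan.bot_lt (F : Fan) {v : F.ι} (h : v ≠ F.u) : F.θ F.u < F.θ v :=
  lt_of_le_of_ne (F.bot v) (fun hh => h (F.inj _ _ hh).symm)

theorem Fan.lt_top (F : Fan) {v : F.ι} (h : v ≠ F.t) : F.θ v < F.θ F.t :=
  lt_of_le_of_ne (F.top v) (fun hh => h (F.inj _ _ hh))

theorem Fan.ru_le (F : Fan) {v : F.ι} (h : v ≠ F.u) : F.r F.u ≤ F.l v := F.ord _ _ (F.bot_lt h)

theorem Fan.le_lt (F : Fan) {v : F.ι} (h : v ≠ F.t) : F.r v ≤ F.l F.t := F.ord _ _ (F.lt_top h)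

theorem Fan.ru_len (F : Fan) : F.r F.u ≤ F.a + π := by
  have := F.len F.u
  rw [F.lu] at this
  exact this

theorem Fan.lt_len (F : Fan) : F.a + π ≤ F.l F.t := by
  have := F.len F.t
  rw [F.rt] at this
  linarith

/-- The right end of the arc of the bottom vertex is beyond `β`. -/
theorem Fan.ru_gt (F : Fan) : F.θ F.u + π / 2 < F.r F.u := by
  have h0 := F.ru_len
  have hp := pi_pos
  have h1 : F.a ≤ F.r F.u := by
    have := F.lr F.u
    rw [F.lu] at this
    exact this.le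
  obtain ⟨w, hw1, hw2⟩ := F.cov (F.r F.u) h1 (by linarith)
  have hwu : w ≠ F.u := by
    rintro rfl
    exact lt_irrefl _ hw2
  have h3 := F.far2 w hwu
  have h4 := F.bot w
  linarith

/-! The mirror image. -/

/-- The mirror image of a near-edge polygon. -/
noncomputable def Fan.mirror (F : Fan) : Fan where
  ι := F.ι
  fin := F.fin
  l v := 2 * π - F.r v
  r v := 2 * π - F.l v
  a := -F.a
  lr v := by
    have := F.lr v
    linarith
  len v := by
    have := F.len v
    linarith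
  al v := by
    have := F.ra v
    linarith
  ra v := by
    have := F.al v
    linarith
  dis v w h := by
    rcases F.dis v w h with h | h
    · right; linarith
    · left; linarith
  cov x h1 h2 := by
    obtain ⟨v, hv1, hv2⟩ := F.cov' (2 * π - x) (by linarith) (by linarith)
    exact ⟨v, by linarith, by linarith⟩
  cov' x h1 h2 := by
    obtain ⟨v, hv1, hv2⟩ := F.cov (2 * π - x) (by linarith) (by linarith)
    exact ⟨v, by linarith, by linarith⟩
  θ v := -F.θ v
  t := F.u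
  u := F.t
  lu := by
    have := F.rt
    linarith
  rt := by
    have := F.lu
    linarith
  ord v w h := by
    have := F.ord w v (by linarith)
    linarith
  inj v w h := F.inj v w (by linarith)
  top v := by
    have := F.bot v
    linarith
  bot v := by
    have := F.top v
    linarith
  tu := by
    have := F.tu
    linarith
  lo := by
    have := F.hi
    linarith
  hi := by
    have := F.lo
    linarith
  a1 := by
    have := F.a2
    linarith
  a2 := by
    have := F.a1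
    linarith
  far1 v h := by
    have := F.far2 v h
    linarith
  far2 v h := by
    have := F.far1 v h
    linarith

theorem Fan.mirror_in (F : Fan) (v : F.ι) (x : ℝ) : F.mirror.In v x ↔ F.In v (-x) := by
  constructor
  · rintro ⟨z, h1, h2⟩
    refine ⟨1 - z, ?_, ?_⟩
    · change x + 2 * π * z < 2 * π - F.l v at h2
      push_cast
      linarith
    · change 2 * π - F.r v < x + 2 * π * z at h1
      push_cast
      linarith
  · rintro ⟨z, h1, h2⟩
    refine ⟨1 - z, ?_, ?_⟩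
    · change 2 * π - F.r v < x + 2 * π * ((1 - z : ℤ) : ℝ)
      push_cast
      linarith
    · change x + 2 * π * ((1 - z : ℤ) : ℝ) < 2 * π - F.l v
      push_cast
      linarith

theorem Fan.mirror_pos (F : Fan) (x : ℝ) : F.mirror.Pos x ↔ F.Pos (-x) := by
  constructor
  · rintro ⟨z, h1, h2⟩
    change -F.θ F.u - π / 2 < x + 2 * π * z at h1
    change x + 2 * π * z < -F.θ F.t + π / 2 at h2
    refine ⟨-z, ?_, ?_⟩ <;> push_cast <;> linarith
  · rintro ⟨z, h1, h2⟩
    refine ⟨-z, ?_, ?_⟩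
    · change -F.θ F.u - π / 2 < x + 2 * π * ((-z : ℤ) : ℝ)
      push_cast
      linarith
    · change x + 2 * π * ((-z : ℤ) : ℝ) < -F.θ F.t + π / 2
      push_cast
      linarith

theorem ND.mirror {X Y Z : Fan} (h : ND X Y Z) : ND X.mirror Y.mirror Z.mirror := by
  rintro p q s hb ⟨x, h1, h2⟩
  rw [Fan.mirror_in] at h1 h2
  have hb' : Btw (X.θ p) (Y.θ q) (Z.θ s) := by
    change Btw (-X.θ p) (-Y.θ q) (-Z.θ s) at hb
    rcases hb with ⟨h, h'⟩ | ⟨h, h'⟩
    · exact Or.inr ⟨by linarith, by linarith⟩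
    · exact Or.inl ⟨by linarith, by linarith⟩
  obtain ⟨y, hy1, hy2, hy3⟩ := h p q s hb' ⟨-x, h1, h2⟩
  refine ⟨-y, ?_, ?_, ?_⟩ <;> rw [Fan.mirror_in, neg_neg] <;> assumption

theorem SS.mirror {X Y Z : Fan} (h : SS X Y Z) : SS X.mirror Y.mirror Z.mirror := by
  rintro p q s ⟨x, h1, h2⟩ hp
  rw [Fan.mirror_in] at h1 h2
  obtain ⟨y, hy1, hy2, hy3⟩ := h p q s ⟨-x, h1, h2⟩ (fun z hz1 hz2 => by
    have := hp (-z) ((X.mirror_in p (-z)).2 (by rwa [neg_neg]))
      ((Y.mirror_in q (-z)).2 (by rwa [neg_neg]))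
    rw [Fan.mirror_pos, Fan.mirror_pos, neg_neg] at this
    exact this)
  refine ⟨-y, ?_, ?_, ?_⟩
  · rw [Fan.mirror_in, neg_neg]; assumption
  · rw [Fan.mirror_pos, neg_neg]; assumption
  · rw [Fan.mirror_pos, neg_neg]; assumption

/-- Every left end of an arc is a right end, modulo `2π`. -/
theorem Fan0.left_adj (F : Fan0) (v : F.ι) : ∃ w, ∃ z : ℤ, F.r w = F.l v + 2 * π * z := by
  have hp := pi_pos
  have h1 := F.al v
  have h2 := F.ra v
  have h3 := F.lr v
  rcases h1.lt_or_eq with h | h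
  · obtain ⟨w, hw1, hw2⟩ := F.cov' (F.l v) h (by linarith)
    refine ⟨w, 0, ?_⟩
    push_cast
    rcases hw2.lt_or_eq with hw | hw
    · exfalso
      rcases F.dis v w (by rintro rfl; exact lt_irrefl _ hw1) with hd | hd <;> linarith
    · linarith
  · obtain ⟨w, hw1, hw2⟩ := F.cov' (F.a + 2 * π) (by linarith) le_rfl
    refine ⟨w, 1, ?_⟩
    have := F.ra w
    push_cast
    linarith

/-- Every right end of an arc is a left end, modulo `2π`. -/
theorem Fan0.right_adj (F : Fan0) (v : F.ι) : ∃ w, ∃ z : ℤ, F.l w = F.r v + 2 * π * z := by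
  have hp := pi_pos
  have h1 := F.al v
  have h2 := F.ra v
  have h3 := F.lr v
  rcases h2.lt_or_eq with h | h
  · obtain ⟨w, hw1, hw2⟩ := F.cov (F.r v) (by linarith) h
    refine ⟨w, 0, ?_⟩
    push_cast
    rcases hw1.lt_or_eq with hw | hw
    · exfalso
      rcases F.dis v w (by rintro rfl; exact lt_irrefl _ hw2) with hd | hd <;> linarith
    · linarith
  · obtain ⟨w, hw1, hw2⟩ := F.cov F.a le_rfl (by linarith)
    refine ⟨w, -1, ?_⟩
    have := F.al w
    push_cast
    linarith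

theorem Dist.mirror {X Y : Fan} (h : Dist X Y) : Dist X.mirror Y.mirror := by
  refine ⟨fun p q hpq => h.ang p q (by
    change -X.θ p = -Y.θ q at hpq
    linarith), fun p q z hz => ?_⟩
  change 2 * π - X.l p = 2 * π - Y.l q + 2 * π * z at hz
  obtain ⟨v, m, hv⟩ := X.left_adj p
  obtain ⟨w, n, hw⟩ := Y.left_adj q
  refine h.ray v w (m - n - z) ?_
  rw [hv, hw]
  push_cast
  linarith

theorem Good.mirror {X Y Z : Fan} (h : Good X Y Z) : Good Z.mirror Y.mirror X.mirror :=
  ⟨h.nd3.symm.mirror, h.nd2.symm.mirror, h.nd1.symm.mirror, h.ss3.symm.mirror,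
    h.ss2.symm.mirror, h.ss1.symm.mirror, h.d23.symm.mirror, h.d13.symm.mirror,
    h.d12.symm.mirror⟩

/-- The left end of the arc of the top vertex is before `α + 2π`. -/
theorem Fan.lt_lt (F : Fan) : F.l F.t < F.θ F.t + 3 * π / 2 := by
  have := F.mirror.ru_gt
  change -F.θ F.t + π / 2 < 2 * π - F.l F.t at this
  linarith

/-- The far crossing at a level `c`. -/
theorem Fan.crossing (F : Fan) (c : ℝ) (h1 : F.θ F.u < c) (h2 : c < F.θ F.t)
    (h3 : ∀ v, F.θ v ≠ c) : ∃ L R, F.θ L < c ∧ c < F.θ R ∧ F.r L = F.l R ∧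
      (∀ v, F.θ v < c → F.r v ≤ F.r L) ∧ (∀ v, c < F.θ v → F.r L ≤ F.l v) := by
  haveI := F.fin
  obtain ⟨L, hL, hmax⟩ := Set.exists_max_image {v | F.θ v < c} F.r (Set.toFinite _) ⟨F.u, h1⟩
  have hL' : F.θ L < c := hL
  have hLt : L ≠ F.t := by
    rintro rfl
    exact absurd h2 (not_lt.2 hL'.le)
  have h4 := F.le_lt hLt
  have h5 := F.lr F.t
  have h6 := F.rt
  have h7 := F.al L
  have h8 := F.lr L
  obtain ⟨R, hR1, hR2⟩ := F.cov (F.r L) (by linarith) (by linarith)
  have hR : c < F.θ R := by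
    by_contra hcon
    have h9 : F.θ R < c := lt_of_le_of_ne (not_lt.1 hcon) (h3 R)
    have h10 := hmax R h9
    linarith
  have h11 := F.ord L R (by linarith)
  exact ⟨L, R, hL', hR, by linarith, hmax, fun v hv => F.ord L v (by linarith)⟩

end Pool.Agent.Lib.MP_4e7804_co.Last
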