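import Pool.Agent.Lib.MP_4e7804_co.Last.Easy

/-! The last chamber: three polygons in an open half plane have an empty off-diagonal mixed
triple. -/

set_option autoImplicit false

namespace Pool.Agent.Lib.MP_4e7804_co.Last

open Real

/-- The dot product of the plane. -/
def dt (p w : ℝ × ℝ) : ℝ := p.1 * w.1 + p.2 * w.2

/-- The cross product of the plane. -/
def cr (p q : ℝ × ℝ) : ℝ := p.1 * q.2 - p.2 * q.1

/-- The open normal cone of `p` (min convention): the directions in which `p` is the strict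
minimizer on `V`. -/
def N (V : Finset (ℝ × ℝ)) (p : ℝ × ℝ) : Set (ℝ × ℝ) := {w | ∀ q ∈ V, q ≠ p → dt p w < dt q w}

/-- The vector `w0` rotated by the angle `x`. -/
noncomputable def W (w0 : ℝ × ℝ) (x : ℝ) : ℝ × ℝ :=
  (cos x * w0.1 - sin x * w0.2, cos x * w0.2 + sin x * w0.1)

/-- The vector `p` as a complex number in the basis `w0`, `i w0`. -/
noncomputable def zc (w0 p : ℝ × ℝ) : ℂ := ⟨dt p w0, cr w0 p⟩

theorem dt_W (w0 p : ℝ × ℝ) (x : ℝ) :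
    dt p (W w0 x) = ‖zc w0 p‖ * cos (x - Complex.arg (zc w0 p)) := by
  have h1 := Complex.norm_mul_cos_arg (zc w0 p)
  have h2 := Complex.norm_mul_sin_arg (zc w0 p)
  have h3 : (zc w0 p).re = dt p w0 := rfl
  have h4 : (zc w0 p).im = cr w0 p := rfl
  rw [h3] at h1
  rw [h4] at h2
  rw [cos_sub]
  have h5 : dt p (W w0 x) = cos x * dt p w0 + sin x * cr w0 p := by
    simp only [dt, W, cr]
    ring
  rw [h5, ← h1, ← h2]
  ring

theorem dt_smul (p w : ℝ × ℝ) (c : ℝ) : dt p (c • w) = c * dt p w := by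
  simp only [dt, Prod.smul_fst, Prod.smul_snd, smul_eq_mul]
  ring

theorem polar (w0 : ℝ × ℝ) (h0 : 0 < dt w0 w0) (w : ℝ × ℝ) :
    ∃ c x : ℝ, 0 ≤ c ∧ w = c • W w0 x := by
  set C : ℂ := ⟨dt w w0 / dt w0 w0, cr w0 w / dt w0 w0⟩ with hC
  refine ⟨‖C‖, Complex.arg C, norm_nonneg _, ?_⟩
  have h1 := Complex.norm_mul_cos_arg C
  have h2 := Complex.norm_mul_sin_arg C
  have h3 : C.re = dt w w0 / dt w0 w0 := rfl
  have h4 : C.im = cr w0 w / dt w0 w0 := rfl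
  rw [h3] at h1
  rw [h4] at h2
  have h5 : w.1 = (dt w w0 / dt w0 w0) * w0.1 - (cr w0 w / dt w0 w0) * w0.2 := by
    rw [div_mul_eq_mul_div, div_mul_eq_mul_div, ← sub_div, eq_div_iff h0.ne']
    simp only [dt, cr]
    ring
  have h6 : w.2 = (dt w w0 / dt w0 w0) * w0.2 + (cr w0 w / dt w0 w0) * w0.1 := by
    rw [div_mul_eq_mul_div, div_mul_eq_mul_div, ← add_div, eq_div_iff h0.ne']
    simp only [dt, cr]
    ring
  ext
  · rw [h5, ← h1, ← h2]
    simp only [W, Prod.smul_fst, smul_eq_mul]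
    ring
  · rw [h6, ← h1, ← h2]
    simp only [W, Prod.smul_snd, smul_eq_mul]
    ring

/-- The hypotheses for one polygon. -/
structure Data (w0 : ℝ × ℝ) (V : Finset (ℝ × ℝ)) : Prop where
  card : 2 ≤ V.card
  conv : ∀ p ∈ V, (N V p).Nonempty
  cr : ∀ p ∈ V, ∀ q ∈ V, p ≠ q → cr p q ≠ 0
  pos : ∀ p ∈ V, 0 < dt p w0

variable {w0 : ℝ × ℝ} {V : Finset (ℝ × ℝ)}

theorem Data.w0_pos (D : Data w0 V) : 0 < dt w0 w0 := by
  obtain ⟨p, hp, -⟩ := Finset.one_lt_card.1 D.card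
  have h := D.pos p hp
  by_contra hcon
  push Not at hcon
  have h1 : w0.1 = 0 := by
    simp only [dt] at hcon
    nlinarith [sq_nonneg w0.1, sq_nonneg w0.2]
  have h2 : w0.2 = 0 := by
    simp only [dt] at hcon
    nlinarith [sq_nonneg w0.1, sq_nonneg w0.2]
  simp only [dt, h1, h2] at h
  linarith

theorem Data.exists_ne (D : Data w0 V) (p : ℝ × ℝ) : ∃ q ∈ V, q ≠ p := by
  obtain ⟨a, ha, b, hb, hab⟩ := Finset.one_lt_card.1 D.card
  by_cases h : a = p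
  · exact ⟨b, hb, fun hb => hab (h.trans hb.symm)⟩
  · exact ⟨a, ha, h⟩

theorem arg_ne (h0 : 0 < dt w0 w0) (p q : ℝ × ℝ) (h : cr p q ≠ 0) :
    Complex.arg (zc w0 p) ≠ Complex.arg (zc w0 q) := by
  intro he
  apply h
  have h1 := Complex.norm_mul_cos_arg (zc w0 p)
  have h2 := Complex.norm_mul_sin_arg (zc w0 p)
  have h3 := Complex.norm_mul_cos_arg (zc w0 q)
  have h4 := Complex.norm_mul_sin_arg (zc w0 q)
  have e1 : (zc w0 p).re = dt p w0 := rfl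
  have e2 : (zc w0 p).im = cr w0 p := rfl
  have e3 : (zc w0 q).re = dt q w0 := rfl
  have e4 : (zc w0 q).im = cr w0 q := rfl
  rw [e1] at h1
  rw [e2] at h2
  rw [e3] at h3
  rw [e4] at h4
  rw [he] at h1 h2
  have h5 : dt p w0 * cr w0 q - cr w0 p * dt q w0 = 0 := by
    rw [← h1, ← h2, ← h3, ← h4]
    ring
  have h6 : dt p w0 * cr w0 q - cr w0 p * dt q w0 = dt w0 w0 * cr p q := by
    simp only [dt, cr]
    ring
  rw [h6] at h5
  rcases mul_eq_zero.1 h5 with h7 | h7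
  · exact absurd h7 h0.ne'
  · exact h7

/-- A nonzero direction of a normal cone as an angle. -/
theorem Data.polar (D : Data w0 V) (p w : ℝ × ℝ) (hw : w ∈ N V p) :
    ∃ c x : ℝ, 0 < c ∧ w = c • W w0 x ∧ W w0 x ∈ N V p := by
  obtain ⟨c, x, hc, hx⟩ := Last.polar w0 D.w0_pos w
  obtain ⟨q, hq, hqp⟩ := D.exists_ne p
  have hc' : 0 < c := by
    refine lt_of_le_of_ne hc fun h => ?_
    have h1 := hw q hq hqp
    rw [hx, dt_smul, dt_smul, ← h] at h1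
    linarith
  refine ⟨c, x, hc', hx, fun a ha hap => ?_⟩
  have h1 := hw a ha hap
  rw [hx, dt_smul, dt_smul] at h1
  exact lt_of_mul_lt_mul_left h1 hc

/-- The polygon in polar coordinates. -/
noncomputable def Data.pol (D : Data w0 V) : Pol where
  ι := {p // p ∈ V}
  fin := inferInstance
  ρ p := ‖zc w0 p.1‖
  θ p := Complex.arg (zc w0 p.1)
  pos p := by
    rw [norm_pos_iff]
    intro h
    have h1 : (zc w0 p.1).re = 0 := by rw [h]; rfl
    exact absurd h1 (D.pos p.1 p.2).ne'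
  lo p := (abs_lt.1 (Complex.abs_arg_lt_pi_div_two_iff.2 (Or.inl (D.pos p.1 p.2)))).1
  hi p := (abs_lt.1 (Complex.abs_arg_lt_pi_div_two_iff.2 (Or.inl (D.pos p.1 p.2)))).2
  inj p q h := by
    by_contra hne
    exact arg_ne D.w0_pos p.1 q.1 (D.cr p.1 p.2 q.1 q.2 fun h => hne (Subtype.ext h)) h
  nontriv := by
    obtain ⟨a, ha, b, hb, hab⟩ := Finset.one_lt_card.1 D.card
    exact ⟨⟨a, ha⟩, ⟨b, hb⟩, fun h => hab (congrArg Subtype.val h)⟩
  conv p := by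
    obtain ⟨w, hw⟩ := D.conv p.1 p.2
    obtain ⟨c, x, -, -, hx⟩ := D.polar p.1 w hw
    refine ⟨x, fun q hq => ?_⟩
    have := hx q.1 q.2 fun h => hq (Subtype.ext h)
    rwa [dt_W, dt_W] at this

theorem Data.h_eq (D : Data w0 V) (p : {p // p ∈ V}) (x : ℝ) :
    D.pol.h p x = dt p.1 (W w0 x) := (dt_W w0 p.1 x).symm

theorem Data.mn_iff (D : Data w0 V) (p : {p // p ∈ V}) (x : ℝ) :
    D.pol.Mn p x ↔ W w0 x ∈ N V p.1 := by
  constructor
  · intro h q hq hqp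
    have := h ⟨q, hq⟩ fun h => hqp (congrArg Subtype.val h)
    rwa [D.h_eq, D.h_eq] at this
  · intro h q hq
    have := h q.1 q.2 fun h => hq (Subtype.ext h)
    rwa [← D.h_eq, ← D.h_eq ⟨q.1, q.2⟩] at this

/-- No empty off-diagonal mixed triple with the third vertex in `V3`. -/
def NoEmpty (V1 V2 V3 : Finset (ℝ × ℝ)) : Prop :=
  ∀ p ∈ V1, ∀ q ∈ V2, ∀ s ∈ V3, (N V1 p ∩ N V2 q).Nonempty → N V1 p ∩ N V2 q ∩ N V3 s = ∅ →
    ∃ w w', w ∈ N V1 p ∧ w ∈ N V2 q ∧ w' ∈ N V3 s ∧ (∀ a ∈ V1, dt p w < dt a w') ∧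
      (∀ a ∈ V2, dt q w < dt a w') ∧ (∀ a ∈ V3, dt s w' < dt a w)

variable {V1 V2 V3 : Finset (ℝ × ℝ)}

theorem NoEmpty.sep (h : NoEmpty V1 V2 V3) (D1 : Data w0 V1) (D2 : Data w0 V2)
    (D3 : Data w0 V3) (p : {p // p ∈ V1}) (q : {p // p ∈ V2}) (s : {p // p ∈ V3})
    (hpq : ∃ x, D1.pol.Mn p x ∧ D2.pol.Mn q x) :
    (∃ x, D1.pol.Mn p x ∧ D2.pol.Mn q x ∧ D3.pol.Mn s x) ∨
      ∃ c c' x x' : ℝ, 0 < c ∧ 0 < c' ∧ D1.pol.Mn p x ∧ D2.pol.Mn q x ∧ D3.pol.Mn s x' ∧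
        (∀ a : {a // a ∈ V1}, c * D1.pol.h p x < c' * D1.pol.h a x') ∧
        (∀ a : {a // a ∈ V2}, c * D2.pol.h q x < c' * D2.pol.h a x') ∧
        (∀ a : {a // a ∈ V3}, c' * D3.pol.h s x' < c * D3.pol.h a x) := by
  by_cases h3 : ∃ x, D1.pol.Mn p x ∧ D2.pol.Mn q x ∧ D3.pol.Mn s x
  · exact Or.inl h3
  right
  obtain ⟨x0, h1, h2⟩ := hpq
  rw [D1.mn_iff] at h1
  rw [D2.mn_iff] at h2
  obtain ⟨w, w', g1, g2, g3, g4, g5, g6⟩ := h p.1 p.2 q.1 q.2 s.1 s.2 ⟨_, h1, h2⟩ (by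
    rw [Set.eq_empty_iff_forall_notMem]
    rintro w ⟨⟨g1, g2⟩, g3⟩
    obtain ⟨c, x, hc, hx, hx1⟩ := D1.polar p.1 w g1
    refine h3 ⟨x, (D1.mn_iff p x).2 hx1, (D2.mn_iff q x).2 ?_, (D3.mn_iff s x).2 ?_⟩
    · intro a ha hap
      have := g2 a ha hap
      rw [hx, dt_smul, dt_smul] at this
      exact lt_of_mul_lt_mul_left this hc.le
    · intro a ha hap
      have := g3 a ha hap
      rw [hx, dt_smul, dt_smul] at this
      exact lt_of_mul_lt_mul_left this hc.le)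
  obtain ⟨c, x, hc, hx, hx1⟩ := D1.polar p.1 w g1
  obtain ⟨c', x', hc', hx', hx1'⟩ := D3.polar s.1 w' g3
  refine ⟨c, c', x, x', hc, hc', (D1.mn_iff p x).2 hx1, (D2.mn_iff q x).2 ?_,
    (D3.mn_iff s x').2 hx1', fun a => ?_, fun a => ?_, fun a => ?_⟩
  · intro a ha hap
    have := g2 a ha hap
    rw [hx, dt_smul, dt_smul] at this
    exact lt_of_mul_lt_mul_left this hc.le
  · have := g4 a.1 a.2
    rw [hx, hx', dt_smul, dt_smul] at this
    rwa [← D1.h_eq p, ← D1.h_eq ⟨a.1, a.2⟩] at this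
  · have := g5 a.1 a.2
    rw [hx, hx', dt_smul, dt_smul] at this
    rwa [← D2.h_eq q, ← D2.h_eq ⟨a.1, a.2⟩] at this
  · have := g6 a.1 a.2
    rw [hx, hx', dt_smul, dt_smul] at this
    rwa [← D3.h_eq s, ← D3.h_eq ⟨a.1, a.2⟩] at this

end Pool.Agent.Lib.MP_4e7804_co.Last
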