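import Pool.Agent.Lib.MP_4e7804_co.Last.Final

/-! The last chamber, main theorem. -/

set_option autoImplicit false

namespace Pool.Agent.Lib.MP_4e7804_co.Last

open Real

variable {w0 : ℝ × ℝ} {V1 V2 V3 : Finset (ℝ × ℝ)}

theorem NoEmpty.nd (h : NoEmpty V1 V2 V3) (D1 : Data w0 V1) (D2 : Data w0 V2)
    (D3 : Data w0 V3) (p : {p // p ∈ V1}) (q : {p // p ∈ V2}) (s : {p // p ∈ V3})
    (hb : Btw (D1.pol.θ p) (D2.pol.θ q) (D3.pol.θ s))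
    (hpq : ∃ x, D1.pol.Mn p x ∧ D2.pol.Mn q x) :
    ∃ x, D1.pol.Mn p x ∧ D2.pol.Mn q x ∧ D3.pol.Mn s x := by
  rcases h.sep D1 D2 D3 p q s hpq with h1 | ⟨c, c', x, x', hc, hc', m1, m2, m3, g1, g2, g3⟩
  · exact h1
  exfalso
  have k1 := g1 p
  have k2 := g2 q
  have k3 := g3 s
  unfold Pol.h at k1 k2 k3
  have p1 := D1.pol.pos p
  have p2 := D2.pol.pos q
  have p3 := D3.pol.pos s
  have e1 := D1.pol.lo p
  have e2 := D1.pol.hi p
  have e3 := D2.pol.lo q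
  have e4 := D2.pol.hi q
  have e5 := D3.pol.lo s
  have e6 := D3.pol.hi s
  generalize D1.pol.θ p = a at *
  generalize D2.pol.θ q = b at *
  generalize D3.pol.θ s = d at *
  have j1 : 0 < c' * cos (x' - a) - c * cos (x - a) := by
    have : D1.pol.ρ p * 0 < D1.pol.ρ p * (c' * cos (x' - a) - c * cos (x - a)) := by
      rw [mul_zero]
      linarith
    exact lt_of_mul_lt_mul_left this p1.le
  have j2 : 0 < c' * cos (x' - b) - c * cos (x - b) := by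
    have : D2.pol.ρ q * 0 < D2.pol.ρ q * (c' * cos (x' - b) - c * cos (x - b)) := by
      rw [mul_zero]
      linarith
    exact lt_of_mul_lt_mul_left this p2.le
  have j3 : c' * cos (x' - d) - c * cos (x - d) < 0 := by
    have : D3.pol.ρ s * (c' * cos (x' - d) - c * cos (x - d)) < D3.pol.ρ s * 0 := by
      rw [mul_zero]
      linarith
    exact lt_of_mul_lt_mul_left this p3.le
  have t1 := trig5 x d a b
  have t2 := trig5 x' d a b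
  have t3 : sin (a - b) * (c' * cos (x' - d) - c * cos (x - d)) =
      sin (d - b) * (c' * cos (x' - a) - c * cos (x - a)) +
        sin (a - d) * (c' * cos (x' - b) - c * cos (x - b)) := by
    linear_combination c' * t2 - c * t1
  rcases hb with ⟨hb1, hb2⟩ | ⟨hb1, hb2⟩
  · have s1 : 0 < sin (b - a) := sin_pos_of_pos_of_lt_pi (by linarith) (by linarith)
    have s2 : 0 < sin (b - d) := sin_pos_of_pos_of_lt_pi (by linarith) (by linarith)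
    have s3 : 0 < sin (d - a) := sin_pos_of_pos_of_lt_pi (by linarith) (by linarith)
    rw [show a - b = -(b - a) by ring, show d - b = -(b - d) by ring,
      show a - d = -(d - a) by ring, sin_neg, sin_neg, sin_neg] at t3
    nlinarith [mul_pos s2 j1, mul_pos s3 j2, mul_pos s1 (neg_pos.2 j3)]
  · have s1 : 0 < sin (a - b) := sin_pos_of_pos_of_lt_pi (by linarith) (by linarith)
    have s2 : 0 < sin (d - b) := sin_pos_of_pos_of_lt_pi (by linarith) (by linarith)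
    have s3 : 0 < sin (a - d) := sin_pos_of_pos_of_lt_pi (by linarith) (by linarith)
    nlinarith [mul_pos s2 j1, mul_pos s3 j2, mul_pos s1 (neg_pos.2 j3)]

theorem NoEmpty.ss (h : NoEmpty V1 V2 V3) (D1 : Data w0 V1) (D2 : Data w0 V2)
    (D3 : Data w0 V3) (p : {p // p ∈ V1}) (q : {p // p ∈ V2}) (s : {p // p ∈ V3})
    (hpq : ∃ x, D1.pol.Mn p x ∧ D2.pol.Mn q x)
    (hp : ∀ x, D1.pol.Mn p x → D2.pol.Mn q x →
      (∀ a, 0 < D1.pol.h a x) ∧ (∀ a, 0 < D2.pol.h a x)) :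
    ∃ x, D3.pol.Mn s x ∧ (∀ a, 0 < D1.pol.h a x) ∧ (∀ a, 0 < D2.pol.h a x) := by
  rcases h.sep D1 D2 D3 p q s hpq with ⟨x, h1, h2, h3⟩ |
    ⟨c, c', x, x', hc, hc', m1, m2, m3, g1, g2, g3⟩
  · exact ⟨x, h3, hp x h1 h2⟩
  · obtain ⟨k1, k2⟩ := hp x m1 m2
    refine ⟨x', m3, fun a => ?_, fun a => ?_⟩
    · have := g1 a
      have := mul_pos hc (k1 p)
      exact pos_of_mul_pos_right (lt_trans this (g1 a)) hc'.le
    · have := mul_pos hc (k2 q)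
      exact pos_of_mul_pos_right (lt_trans this (g2 a)) hc'.le

/-- The rays of the two polygons are different. -/
def RayDist (V1 V2 : Finset (ℝ × ℝ)) : Prop :=
  ∀ w, w ≠ 0 → (∃ p ∈ V1, w ∈ N V1 p) ∨ (∃ q ∈ V2, w ∈ N V2 q)

theorem W_ne (h0 : 0 < dt w0 w0) (x : ℝ) : W w0 x ≠ 0 := by
  intro h
  have h1 : cos x * w0.1 - sin x * w0.2 = 0 := congrArg Prod.fst h
  have h2 : cos x * w0.2 + sin x * w0.1 = 0 := congrArg Prod.snd h
  have h3 := sin_sq_add_cos_sq x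
  have h4 : dt w0 w0 = (cos x * w0.1 - sin x * w0.2) ^ 2 + (cos x * w0.2 + sin x * w0.1) ^ 2 := by
    simp only [dt]
    linear_combination (-(w0.1 ^ 2) - w0.2 ^ 2) * h3
  rw [h1, h2] at h4
  linarith

theorem ray_ne (h : RayDist V1 V2) (D1 : Data w0 V1) (D2 : Data w0 V2) {a b : ℝ}
    (ha : ∀ v, ¬ D1.pol.Mn v a) (hb : ∀ v, ¬ D2.pol.Mn v b) (p : (D1.pol.fan0 a ha).ι)
    (q : (D2.pol.fan0 b hb).ι) (z : ℤ) :
    (D1.pol.fan0 a ha).r p ≠ (D2.pol.fan0 b hb).r q + 2 * π * z := by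
  intro he
  rcases h (W w0 ((D1.pol.fan0 a ha).r p)) (W_ne D1.w0_pos _) with ⟨v, hv, hv2⟩ | ⟨v, hv, hv2⟩
  · have h1 := (D1.mn_iff ⟨v, hv⟩ _).2 hv2
    exact (D1.pol.fan0 a ha).r_not_in p _ ((Pol.fan0_in ha _ _).2 h1)
  · have h1 := (D2.mn_iff ⟨v, hv⟩ _).2 hv2
    rw [he] at h1
    exact (D2.pol.fan0 b hb).r_not_in q _ ((Pol.fan0_in hb _ _).2 h1).of_add

theorem exists_tu (P : Pol) : ∃ t u, (∀ v, P.θ v ≤ P.θ t) ∧ ∀ v, P.θ u ≤ P.θ v := by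
  haveI := P.fin
  haveI : Nonempty P.ι := ⟨P.nontriv.choose⟩
  obtain ⟨t, ht⟩ := Finite.exists_max P.θ
  obtain ⟨u, hu⟩ := Finite.exists_min P.θ
  exact ⟨t, u, ht, hu⟩

/-- In the directions between `β` and `γ` not all values are positive. -/
theorem Pol.not_pos {P : Pol} {t u : P.ι} (ht : ∀ v, P.θ v ≤ P.θ t)
    (hu : ∀ v, P.θ u ≤ P.θ v) (x : ℝ) (z : ℤ) (h1 : P.θ u + π / 2 < x + 2 * π * z)
    (h2 : x + 2 * π * z < P.θ t + 3 * π / 2) (h : ∀ v, 0 < P.h v x) : False := by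
  have h3 := h u
  have h4 := h t
  rw [← P.h_add u x z] at h3
  rw [← P.h_add t x z] at h4
  generalize x + 2 * π * z = y at h1 h2 h3 h4
  have e1 := P.hi t
  have e2 := P.lo u
  have pt := P.pos t
  have pu := P.pos u
  have h5 : 0 < cos (y - P.θ u) := pos_of_mul_pos_right h3 pu.le
  have h6 : 0 < cos (y - P.θ t) := pos_of_mul_pos_right h4 pt.le
  rcases le_or_gt y (P.θ u + 3 * π / 2) with h7 | h7
  · have := cos_nonpos_of_pi_div_two_le_of_le (x := y - P.θ u) (by linarith) (by linarith)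
    linarith
  · have := cos_nonpos_of_pi_div_two_le_of_le (x := y - P.θ t) (by linarith) (by linarith)
    linarith

/-- No near vertices. -/
theorem NoEmpty.far (h : NoEmpty V1 V2 V3) (hr : RayDist V1 V2) (D1 : Data w0 V1)
    (D2 : Data w0 V2) (D3 : Data w0 V3) (t u : D3.pol.ι)
    (ht : ∀ v, D3.pol.θ v ≤ D3.pol.θ t) (hu : ∀ v, D3.pol.θ u ≤ D3.pol.θ v) (s : D3.pol.ι)
    (hst : s ≠ t) (hsu : s ≠ u) (x : ℝ) (hx : D3.pol.Mn s x) : D3.pol.h s x ≤ 0 := by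
  by_contra hcon
  push Not at hcon
  have hnv : ∀ y, D3.pol.Mn s y → 0 < D3.pol.h s y := fun y hy =>
    Pol.near_vertex ht hu s hst hsu x y hx hy hcon
  have hall : ∀ y, D3.pol.Mn s y → ∀ v, 0 < D3.pol.h v y := by
    intro y hy v
    by_cases hv : v = s
    · rw [hv]; exact hnv y hy
    · exact (hnv y hy).trans (hy v hv)
  obtain ⟨t1, u1, ht1, hu1⟩ := exists_tu D1.pol
  obtain ⟨t2, u2, ht2, hu2⟩ := exists_tu D2.pol
  obtain ⟨a, -, -, ha, -⟩ := Pol.exists_near ht1 hu1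
  obtain ⟨b, -, -, hb, -⟩ := Pol.exists_near ht2 hu2
  have htu := Pol.tu_lt ht hu
  obtain ⟨p, q, ⟨x0, h1, h2⟩, h3⟩ := easy (D1.pol.fan0 a ha) (D2.pol.fan0 b hb)
    (ray_ne hr D1 D2 ha hb) (D3.pol.θ u + π / 2) (D3.pol.θ t + 3 * π / 2) (by linarith)
  rcases h.sep D1 D2 D3 p q s ⟨x0, (Pol.fan0_in ha _ _).1 h1, (Pol.fan0_in hb _ _).1 h2⟩ with
    ⟨y, m1, m2, m3⟩ | ⟨c, c', y, y', hc, hc', m1, m2, m3, g1, g2, g3⟩
  · obtain ⟨z, h4, h5⟩ := h3 y ((Pol.fan0_in ha _ _).2 m1) ((Pol.fan0_in hb _ _).2 m2)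
    exact Pol.not_pos ht hu y z h4 h5 (hall y m3)
  · obtain ⟨z, h4, h5⟩ := h3 y ((Pol.fan0_in ha _ _).2 m1) ((Pol.fan0_in hb _ _).2 m2)
    refine Pol.not_pos ht hu y z h4 h5 fun v => ?_
    have h6 := mul_pos hc' (hnv y' m3)
    exact pos_of_mul_pos_right (h6.trans (g3 v)) hc.le

/-- The angles of the vertices of the two polygons are different. -/
def AngDist (V1 V2 : Finset (ℝ × ℝ)) : Prop := ∀ p ∈ V1, ∀ q ∈ V2, cr p q ≠ 0

theorem NoEmpty.nd_fan (h : NoEmpty V1 V2 V3) {D1 : Data w0 V1} {D2 : Data w0 V2}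
    {D3 : Data w0 V3} {t1 u1 : D1.pol.ι} {t2 u2 : D2.pol.ι} {t3 u3 : D3.pol.ι} {a1 a2 a3 : ℝ}
    (N1 : Near D1.pol t1 u1 a1) (N2 : Near D2.pol t2 u2 a2) (N3 : Near D3.pol t3 u3 a3) :
    ND N1.fan N2.fan N3.fan := by
  rintro p q s hb ⟨x, h1, h2⟩
  obtain ⟨y, h3, h4, h5⟩ := h.nd D1 D2 D3 p q s hb
    ⟨x, (N1.fan_in p x).1 h1, (N2.fan_in q x).1 h2⟩
  exact ⟨y, (N1.fan_in p y).2 h3, (N2.fan_in q y).2 h4, (N3.fan_in s y).2 h5⟩

theorem NoEmpty.ss_fan (h : NoEmpty V1 V2 V3) {D1 : Data w0 V1} {D2 : Data w0 V2}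
    {D3 : Data w0 V3} {t1 u1 : D1.pol.ι} {t2 u2 : D2.pol.ι} {t3 u3 : D3.pol.ι} {a1 a2 a3 : ℝ}
    (N1 : Near D1.pol t1 u1 a1) (N2 : Near D2.pol t2 u2 a2) (N3 : Near D3.pol t3 u3 a3) :
    SS N1.fan N2.fan N3.fan := by
  rintro p q s ⟨x, h1, h2⟩ hp
  obtain ⟨y, h3, h4, h5⟩ := h.ss D1 D2 D3 p q s
    ⟨x, (N1.fan_in p x).1 h1, (N2.fan_in q x).1 h2⟩
    (fun z hz1 hz2 => by
      obtain ⟨k1, k2⟩ := hp z ((N1.fan_in p z).2 hz1) ((N2.fan_in q z).2 hz2)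
      exact ⟨(N1.fan_pos z).1 k1, (N2.fan_pos z).1 k2⟩)
  exact ⟨y, (N3.fan_in s y).2 h3, (N1.fan_pos y).2 h4, (N2.fan_pos y).2 h5⟩

theorem dist_fan (hr : RayDist V1 V2) (hc : AngDist V1 V2) {D1 : Data w0 V1}
    {D2 : Data w0 V2} {t1 u1 : D1.pol.ι} {t2 u2 : D2.pol.ι} {a1 a2 : ℝ}
    (N1 : Near D1.pol t1 u1 a1) (N2 : Near D2.pol t2 u2 a2) : Dist N1.fan N2.fan := by
  refine ⟨fun p q => ?_, fun p q z => ray_ne hr D1 D2 N1.ray N2.ray p q z⟩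
  have hp : (p : {p // p ∈ V1}).1 ∈ V1 := (p : {p // p ∈ V1}).2
  exact arg_ne D1.w0_pos _ _ (hc _ (p : {p // p ∈ V1}).2 _ (q : {p // p ∈ V2}).2)

theorem three (D1 : Data w0 V1) (D2 : Data w0 V2) (D3 : Data w0 V3)
    (r12 : RayDist V1 V2) (r13 : RayDist V1 V3) (r23 : RayDist V2 V3)
    (c12 : AngDist V1 V2) (c13 : AngDist V1 V3) (c23 : AngDist V2 V3)
    (n1 : NoEmpty V2 V3 V1) (n2 : NoEmpty V1 V3 V2) (n3 : NoEmpty V1 V2 V3) : False := by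
  obtain ⟨t1, u1, ht1, hu1⟩ := exists_tu D1.pol
  obtain ⟨t2, u2, ht2, hu2⟩ := exists_tu D2.pol
  obtain ⟨t3, u3, ht3, hu3⟩ := exists_tu D3.pol
  obtain ⟨a1, N1⟩ := Pol.near_of_far ht1 hu1 (n1.far r23 D2 D3 D1 t1 u1 ht1 hu1)
  obtain ⟨a2, N2⟩ := Pol.near_of_far ht2 hu2 (n2.far r13 D1 D3 D2 t2 u2 ht2 hu2)
  obtain ⟨a3, N3⟩ := Pol.near_of_far ht3 hu3 (n3.far r12 D1 D2 D3 t3 u3 ht3 hu3)
  exact model_false
    (⟨n1.nd_fan N2 N3 N1, n2.nd_fan N1 N3 N2, n3.nd_fan N1 N2 N3, n1.ss_fan N2 N3 N1,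
      n2.ss_fan N1 N3 N2, n3.ss_fan N1 N2 N3, dist_fan r12 c12 N1 N2, dist_fan r13 c13 N1 N3,
      dist_fan r23 c23 N2 N3⟩ : Good N1.fan N2.fan N3.fan)

/-- THE LAST CHAMBER. Three polygons with at least two vertices each, in strictly convex position
and in general position, all in the open half plane of `w0`: there is an empty off-diagonal mixed
triple. -/
theorem last_chamber (V : Fin 3 → Finset (ℝ × ℝ)) (hcard : ∀ i, 2 ≤ (V i).card)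
    (hconv : ∀ i, ∀ p ∈ V i, (N (V i) p).Nonempty)
    (hcr : ∀ i, ∀ p ∈ V i, ∀ q ∈ V i, p ≠ q → cr p q ≠ 0)
    (hcr' : ∀ i j, i ≠ j → ∀ p ∈ V i, ∀ q ∈ V j, cr p q ≠ 0)
    (hray : ∀ i j, i ≠ j → ∀ w, w ≠ 0 →
      (∃ p ∈ V i, w ∈ N (V i) p) ∨ (∃ q ∈ V j, w ∈ N (V j) q))
    (hA : ∃ w0, ∀ i, ∀ p ∈ V i, 0 < dt p w0) :
    ∃ i j k, i ≠ j ∧ i ≠ k ∧ j ≠ k ∧ ∃ p ∈ V i, ∃ q ∈ V j, ∃ s ∈ V k,
      (N (V i) p ∩ N (V j) q).Nonempty ∧ N (V i) p ∩ N (V j) q ∩ N (V k) s = ∅ ∧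
      ∀ w w', w ∈ N (V i) p → w ∈ N (V j) q → w' ∈ N (V k) s →
        (∀ a ∈ V i, dt p w < dt a w') → (∀ a ∈ V j, dt q w < dt a w') →
        (∀ a ∈ V k, dt s w' < dt a w) → False := by
  by_contra hcon
  have hne : ∀ i j k, i ≠ j → i ≠ k → j ≠ k → NoEmpty (V i) (V j) (V k) := by
    intro i j k hij hik hjk p hp q hq s hs h1 h2
    by_contra hno
    refine hcon ⟨i, j, k, hij, hik, hjk, p, hp, q, hq, s, hs, h1, h2, ?_⟩
    intro w w' g1 g2 g3 g4 g5 g6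
    exact hno ⟨w, w', g1, g2, g3, g4, g5, g6⟩
  obtain ⟨w0, hw0⟩ := hA
  have D : ∀ i, Data w0 (V i) := fun i => ⟨hcard i, hconv i, hcr i, hw0 i⟩
  exact three (D 0) (D 1) (D 2) (hray 0 1 (by decide)) (hray 0 2 (by decide))
    (hray 1 2 (by decide)) (hcr' 0 1 (by decide)) (hcr' 0 2 (by decide)) (hcr' 1 2 (by decide))
    (hne 1 2 0 (by decide) (by decide) (by decide))
    (hne 0 2 1 (by decide) (by decide) (by decide))
    (hne 0 1 2 (by decide) (by decide) (by decide))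

end Pool.Agent.Lib.MP_4e7804_co.Last
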