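import Pool.Agent.Lib.MP_4e7804_co.Last.Pol

/-! The near ray and the fan of a near-edge polygon. -/

set_option autoImplicit false

namespace Pool.Agent.Lib.MP_4e7804_co.Last

open Real Filter Topology

variable {P : Pol} {t u : P.ι} {a : ℝ}

theorem Pol.tu_lt (ht : ∀ v, P.θ v ≤ P.θ t) (hu : ∀ v, P.θ u ≤ P.θ v) : P.θ u < P.θ t := by
  obtain ⟨v, w, hvw⟩ := P.nontriv
  by_contra hcon
  push Not at hcon
  exact hvw (P.inj v w (by linarith [ht v, ht w, hu v, hu w]))

/-- In `(α, β)` all values are positive. -/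
theorem Pol.h_pos (ht : ∀ v, P.θ v ≤ P.θ t) (hu : ∀ v, P.θ u ≤ P.θ v) (v : P.ι) {x : ℝ}
    (h1 : P.θ t - π / 2 < x) (h2 : x < P.θ u + π / 2) : 0 < P.h v x := by
  refine mul_pos (P.pos v) (cos_pos_of_mem_Ioo ⟨?_, ?_⟩)
  · linarith [ht v]
  · linarith [hu v]

theorem Pol.mn_alpha (ht : ∀ v, P.θ v ≤ P.θ t) : P.Mn t (P.θ t - π / 2) := by
  intro w hw
  have h1 : P.θ w < P.θ t := lt_of_le_of_ne (ht w) fun h => hw (P.inj _ _ h)
  unfold Pol.h
  rw [show P.θ t - π / 2 - P.θ t = -(π / 2) by ring, cos_neg, cos_pi_div_two,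
    show P.θ t - π / 2 - P.θ w = (P.θ t - P.θ w) - π / 2 by ring, cos_sub_pi_div_two]
  have := P.pos w
  have := P.hi t
  have := P.lo w
  have h2 : 0 < sin (P.θ t - P.θ w) := sin_pos_of_pos_of_lt_pi (by linarith) (by linarith)
  nlinarith

theorem Pol.h_beta (ht : ∀ v, P.θ v ≤ P.θ t) (hu : ∀ v, P.θ u ≤ P.θ v) :
    P.h u (P.θ u + π / 2) < P.h t (P.θ u + π / 2) := by
  have h1 := Pol.tu_lt ht hu
  unfold Pol.h
  rw [show P.θ u + π / 2 - P.θ u = π / 2 by ring, cos_pi_div_two,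
    show P.θ u + π / 2 - P.θ t = π / 2 - (P.θ t - P.θ u) by ring, cos_pi_div_two_sub]
  have := P.pos t
  have := P.hi t
  have := P.lo u
  have h2 : 0 < sin (P.θ t - P.θ u) := sin_pos_of_pos_of_lt_pi (by linarith) (by linarith)
  nlinarith

theorem Pol.exists_near (ht : ∀ v, P.θ v ≤ P.θ t) (hu : ∀ v, P.θ u ≤ P.θ v) :
    ∃ a, P.θ t - π / 2 < a ∧ a < P.θ u + π / 2 ∧ (∀ v, ¬ P.Mn v a) ∧
      (∀ x, P.θ t - π / 2 < x → x < a → P.Mn t x) ∧
      ∃ v, v ≠ t ∧ ∃ ε > 0, ∀ y, a < y → y < a + ε → P.Mn v y := by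
  have htu := Pol.tu_lt ht hu
  have l1 := P.lo u
  have l2 := P.hi t
  have l3 := pi_pos
  have l4 := P.lo t
  have l5 := P.hi u
  set E : Set ℝ := {x | P.θ t - π / 2 ≤ x ∧ x ≤ P.θ u + π / 2 ∧ ∀ w, P.h t x ≤ P.h w x} with hE
  have hEb : BddAbove E := ⟨P.θ u + π / 2, fun x hx => hx.2.1⟩
  have hal := Pol.mn_alpha ht
  have hwk : ∀ x, P.Mn t x → ∀ w, P.h t x ≤ P.h w x := by
    intro x hx w
    by_cases hw : w = t
    · rw [hw]
    · exact (hx w hw).le
  have hE0 : P.θ t - π / 2 ∈ E := ⟨le_rfl, by linarith, hwk _ hal⟩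
  have hEc : IsClosed E := by
    have : E = Set.Icc (P.θ t - π / 2) (P.θ u + π / 2) ∩ ⋂ w, {x | P.h t x ≤ P.h w x} := by
      ext x
      simp only [hE, Set.mem_setOf_eq, Set.mem_inter_iff, Set.mem_Icc, Set.mem_iInter, and_assoc]
    rw [this]
    exact isClosed_Icc.inter (isClosed_iInter fun w => isClosed_le (P.h_cont t) (P.h_cont w))
  have haE : sSup E ∈ E := hEc.csSup_mem ⟨_, hE0⟩ hEb
  set a := sSup E with ha
  have hab : a < P.θ u + π / 2 := by
    refine lt_of_le_of_ne haE.2.1 fun h => ?_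
    have h1 := haE.2.2 u
    rw [h] at h1
    exact absurd (Pol.h_beta ht hu) (not_lt.2 h1)
  have haa : P.θ t - π / 2 < a := by
    obtain ⟨ε, hε, h⟩ := hal.ball
    obtain ⟨y, h1, h2⟩ := exists_between
      (show P.θ t - π / 2 < min (P.θ t - π / 2 + ε) (P.θ u + π / 2) from
        lt_min (by linarith) (by linarith))
    rw [lt_min_iff] at h2
    exact h1.trans_le (le_csSup hEb ⟨h1.le, h2.2.le, hwk _ (h y (by linarith) h2.1)⟩)
  have hnt : ∀ ε > 0, ¬ ∀ y, a < y → y < a + ε → P.Mn t y := by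
    intro ε hε h
    obtain ⟨y, h1, h2⟩ := exists_between (show a < min (a + ε) (P.θ u + π / 2) from
      lt_min (by linarith) hab)
    rw [lt_min_iff] at h2
    have := le_csSup hEb (show y ∈ E from ⟨by linarith, h2.2.le, hwk _ (h y h1 h2.1)⟩)
    linarith
  refine ⟨a, haa, hab, ?_, ?_, ?_⟩
  · intro v hv
    by_cases hvt : v = t
    · rw [hvt] at hv
      obtain ⟨ε, hε, h⟩ := hv.ball
      exact hnt ε hε fun y h1 h2 => h y (by linarith) h2
    · have h1 := haE.2.2 v
      have h2 := hv t (Ne.symm hvt)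
      linarith
  · intro x h1 h2 w hw
    exact P.lt_left t w h1 h2 (by linarith) (hal w hw) (haE.2.2 w)
  · obtain ⟨v, ε, hε, h⟩ := P.exists_right a
    refine ⟨v, ?_, ε, hε, h⟩
    rintro rfl
    exact hnt ε hε h

/-- The data of a near-edge polygon. -/
structure Near (P : Pol) (t u : P.ι) (a : ℝ) : Prop where
  top : ∀ v, P.θ v ≤ P.θ t
  bot : ∀ v, P.θ u ≤ P.θ v
  a1 : P.θ t - π / 2 < a
  a2 : a < P.θ u + π / 2
  ray : ∀ v, ¬ P.Mn v a
  left : ∀ x, P.θ t - π / 2 < x → x < a → P.Mn t x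
  right : ∃ ε > 0, ∀ y, a < y → y < a + ε → P.Mn u y
  far : ∀ v, v ≠ t → v ≠ u → ∀ x, P.Mn v x → P.h v x ≤ 0

/-- A polygon without near vertices is a near-edge polygon. -/
theorem Pol.near_of_far (ht : ∀ v, P.θ v ≤ P.θ t) (hu : ∀ v, P.θ u ≤ P.θ v)
    (hf : ∀ v, v ≠ t → v ≠ u → ∀ x, P.Mn v x → P.h v x ≤ 0) : ∃ a, Near P t u a := by
  obtain ⟨a, h1, h2, h3, h4, v, hv, ε, hε, h5⟩ := Pol.exists_near ht hu
  refine ⟨a, ht, hu, h1, h2, h3, h4, ?_, hf⟩
  suffices hvu : v = u by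
    rw [← hvu]
    exact ⟨ε, hε, h5⟩
  by_contra hvu
  obtain ⟨y, h6, h7⟩ := exists_between (show a < min (a + ε) (P.θ u + π / 2) from
      lt_min (by linarith) h2)
  rw [lt_min_iff] at h7
  have h8 := hf v hv hvu y (h5 y h6 h7.1)
  have h9 := Pol.h_pos ht hu v (show P.θ t - π / 2 < y by linarith) h7.2
  linarith

theorem Near.lu (N : Near P t u a) : (P.fan0 a N.ray).l u = a := by
  obtain ⟨ε, hε, h⟩ := N.right
  refine le_antisymm ?_ ((P.fan0 a N.ray).al u)
  by_contra hcon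
  push Not at hcon
  obtain ⟨y, h3, h4⟩ := exists_between
    (show a < min ((P.fan0 a N.ray).l u) (min (a + ε) (a + 2 * π)) from
      lt_min hcon (lt_min (by linarith) (by linarith [pi_pos])))
  rw [lt_min_iff, lt_min_iff] at h4
  have h5 := csInf_le (Pol.S_bddBelow u) (show y ∈ P.S a u from
    ⟨h3, h4.2.2, h y h3 h4.2.1⟩)
  exact absurd h4.1 (not_lt.2 h5)

theorem Near.rt (N : Near P t u a) : (P.fan0 a N.ray).r t = a + 2 * π := by
  refine le_antisymm ((P.fan0 a N.ray).ra t) ?_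
  by_contra hcon
  push Not at hcon
  have e1 := N.a1
  have e2 := N.a2
  have e3 := Pol.tu_lt N.top N.bot
  obtain ⟨y, h3, h4⟩ := exists_between
    (show max ((P.fan0 a N.ray).r t) (P.θ t - π / 2 + 2 * π) < a + 2 * π from
      max_lt hcon (by linarith))
  rw [max_lt_iff] at h3
  have h6 := N.left (y - 2 * π) (by linarith) (by linarith)
  have h7 := (P.mn_add t _ 1).2 h6
  have h8 : y - 2 * π + 2 * π * ((1 : ℤ) : ℝ) = y := by push_cast; ring
  rw [h8] at h7
  have h5 := le_csSup (Pol.S_bddAbove t) (show y ∈ P.S a t from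
    ⟨by linarith, h4, h7⟩)
  exact absurd h3.1 (not_lt.2 h5)

theorem Near.cos_neg (N : Near P t u a) (v : P.ι) (hvt : v ≠ t) (hvu : v ≠ u) (x : ℝ)
    (h1 : (P.fan0 a N.ray).l v ≤ x) (h2 : x ≤ (P.fan0 a N.ray).r v) :
    cos (x - P.θ v) < 0 := by
  have hlr := (P.fan0 a N.ray).lr v
  have hcl : Set.Icc ((P.fan0 a N.ray).l v) ((P.fan0 a N.ray).r v) ⊆
      {x | P.h v x ≤ 0 ∧ P.h v x ≤ P.h t x ∧ P.h v x ≤ P.h u x} := by
    rw [← closure_Ioo hlr.ne]
    refine closure_minimal ?_ ?_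
    · intro y hy
      have hy2 := (Pol.S_of N.ray hy.1 hy.2).2.2
      exact ⟨N.far v hvt hvu y hy2, (hy2 t (Ne.symm hvt)).le, (hy2 u (Ne.symm hvu)).le⟩
    · exact (isClosed_le (P.h_cont v) continuous_const).inter
        ((isClosed_le (P.h_cont v) (P.h_cont t)).inter
          (isClosed_le (P.h_cont v) (P.h_cont u)))
  obtain ⟨h3, h4, h5⟩ := hcl ⟨h1, h2⟩
  have pv := P.pos v
  have pt := P.pos t
  have pu := P.pos u
  by_contra hcon
  push Not at hcon
  have h6 : P.h v x = 0 := le_antisymm h3 (mul_nonneg pv.le hcon)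
  rw [h6] at h4 h5
  have h7 : cos (x - P.θ v) = 0 := by
    rcases mul_eq_zero.1 h6 with h | h
    · exact absurd h pv.ne'
    · exact h
  have h8 : 0 ≤ cos (x - P.θ t) := nonneg_of_mul_nonneg_right h4 pt
  have h9 : 0 ≤ cos (x - P.θ u) := nonneg_of_mul_nonneg_right h5 pu
  have e1 : P.θ v < P.θ t := lt_of_le_of_ne (N.top v) fun h => hvt (P.inj _ _ h)
  have e2 : P.θ u < P.θ v := lt_of_le_of_ne (N.bot v) fun h => hvu (P.inj _ _ h).symm
  have e3 := P.hi t
  have e4 := P.lo u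
  have e5 := P.hi v
  have e6 := P.lo v
  have s1 : 0 < sin (P.θ v - P.θ u) := sin_pos_of_pos_of_lt_pi (by linarith) (by linarith)
  have s2 : 0 < sin (P.θ t - P.θ v) := sin_pos_of_pos_of_lt_pi (by linarith) (by linarith)
  have s3 : 0 < sin (P.θ t - P.θ u) := sin_pos_of_pos_of_lt_pi (by linarith) (by linarith)
  have h10 := trig5 x (P.θ v) (P.θ t) (P.θ u)
  rw [h7, mul_zero] at h10
  have h11 : cos (x - P.θ t) = 0 := by
    by_contra hne
    have : 0 < cos (x - P.θ t) := lt_of_le_of_ne h8 (Ne.symm hne)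
    have := mul_pos s1 this
    have := mul_nonneg s2.le h9
    linarith
  have h12 : cos (x - P.θ u) = 0 := by
    by_contra hne
    have : 0 < cos (x - P.θ u) := lt_of_le_of_ne h9 (Ne.symm hne)
    have := mul_pos s2 this
    have := mul_nonneg s1.le h8
    linarith
  have h13 : sin (P.θ t - P.θ u) = 0 := by
    rw [show P.θ t - P.θ u = (x - P.θ u) - (x - P.θ t) by ring, sin_sub, h11, h12]
    ring
  linarith

theorem range_of_cos_neg {c : ℝ} (h : cos c < 0) (h1 : -(π / 2) < c) (h2 : c < 5 * π / 2) :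
    π / 2 < c ∧ c < 3 * π / 2 := by
  constructor
  · by_contra hcon
    push Not at hcon
    have := cos_nonneg_of_neg_pi_div_two_le_of_le h1.le hcon
    linarith
  · by_contra hcon
    push Not at hcon
    have := cos_nonneg_of_neg_pi_div_two_le_of_le (x := c - 2 * π) (by linarith) (by linarith)
    rw [cos_sub_two_pi] at this
    linarith

theorem Near.far1 (N : Near P t u a) (v : P.ι) (hvt : v ≠ t) :
    (P.fan0 a N.ray).r v < P.θ v + 3 * π / 2 := by
  have e1 := N.a1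
  have e2 := N.a2
  have e3 := N.bot v
  have e4 := (P.fan0 a N.ray).len v
  have e5 := pi_pos
  by_cases hvu : v = u
  · have e6 := N.lu
    rw [hvu] at e4 ⊢
    linarith
  · have h1 := N.cos_neg v hvt hvu _ ((P.fan0 a N.ray).lr v).le le_rfl
    have h2 := (P.fan0 a N.ray).ra v
    have h3 := (P.fan0 a N.ray).al v
    have h4 := (P.fan0 a N.ray).lr v
    have h5 := N.top v
    have h6 : (P.fan0 a N.ray).a = a := rfl
    rw [h6] at h2 h3
    have := (range_of_cos_neg h1 (by linarith) (by linarith)).2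
    linarith

theorem Near.far2 (N : Near P t u a) (v : P.ι) (hvu : v ≠ u) :
    P.θ v + π / 2 < (P.fan0 a N.ray).l v := by
  have e1 := N.a1
  have e2 := N.a2
  have e3 := N.top v
  have e4 := (P.fan0 a N.ray).len v
  have e5 := pi_pos
  by_cases hvt : v = t
  · have e6 := N.rt
    rw [hvt] at e4 ⊢
    linarith
  · have h1 := N.cos_neg v hvt hvu _ le_rfl ((P.fan0 a N.ray).lr v).le
    have h2 := (P.fan0 a N.ray).ra v
    have h3 := (P.fan0 a N.ray).al v
    have h4 := (P.fan0 a N.ray).lr v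
    have h5 := N.bot v
    have h6 : (P.fan0 a N.ray).a = a := rfl
    rw [h6] at h2 h3
    have := (range_of_cos_neg h1 (by linarith) (by linarith)).1
    linarith

theorem Near.ord (N : Near P t u a) (v w : P.ι) (h : P.θ v < P.θ w) :
    (P.fan0 a N.ray).r v ≤ (P.fan0 a N.ray).l w := by
  have hvw : v ≠ w := by
    rintro rfl
    exact lt_irrefl _ h
  rcases (P.fan0 a N.ray).dis v w hvw with h1 | h1
  · exact h1
  exfalso
  have hvt : v ≠ t := by
    rintro rfl
    exact absurd (N.top w) (not_le.2 h)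
  have hwu : w ≠ u := by
    rintro rfl
    exact absurd (N.bot v) (not_le.2 h)
  have f1 := N.far1 v hvt
  have f2 := N.far2 w hwu
  obtain ⟨y, hy1, hy2⟩ := exists_between ((P.fan0 a N.ray).lr w)
  obtain ⟨x, hx1, hx2⟩ := exists_between ((P.fan0 a N.ray).lr v)
  have my := (Pol.S_of N.ray hy1 hy2).2.2 v hvw
  have mx := (Pol.S_of N.ray hx1 hx2).2.2 w hvw.symm
  have pv := P.pos v
  have pw := P.pos w
  have c1 : P.h v y < 0 := by
    refine mul_neg_of_pos_of_neg pv ?_
    have : 0 < cos (y - P.θ v - π) := cos_pos_of_mem_Ioo ⟨by linarith, by linarith⟩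
    rw [cos_sub_pi] at this
    linarith
  have c2 : P.h w x < 0 := by
    refine mul_neg_of_pos_of_neg pw ?_
    have : 0 < cos (x - P.θ w - π) := cos_pos_of_mem_Ioo ⟨by linarith, by linarith⟩
    rw [cos_sub_pi] at this
    linarith
  have hd := P.h_det w v x y
  have s1 : 0 < sin (x - y) := sin_pos_of_pos_of_lt_pi (by linarith) (by linarith)
  have e3 := P.hi w
  have e4 := P.lo v
  have s2 : 0 < sin (P.θ w - P.θ v) := sin_pos_of_pos_of_lt_pi (by linarith) (by linarith)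
  have s3 : sin (P.θ v - P.θ w) = -sin (P.θ w - P.θ v) := by
    rw [← sin_neg]
    congr 1
    ring
  rw [s3] at hd
  have h5 : P.ρ w * P.ρ v * (sin (x - y) * -sin (P.θ w - P.θ v)) < 0 := by
    have := mul_pos (mul_pos pw pv) (mul_pos s1 s2)
    linarith
  rw [← hd] at h5
  nlinarith [mul_pos_of_neg_of_neg (sub_neg.2 my) (sub_neg.2 mx),
    mul_pos_of_neg_of_neg c1 c2, mul_pos_of_neg_of_neg c1 (sub_neg.2 mx),
    mul_pos_of_neg_of_neg c2 (sub_neg.2 my)]

/-- The fan of a near-edge polygon. -/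
noncomputable def Near.fan (N : Near P t u a) : Fan where
  toFan0 := P.fan0 a N.ray
  θ := P.θ
  t := t
  u := u
  lu := N.lu
  rt := N.rt
  ord := N.ord
  inj := P.inj
  top := N.top
  bot := N.bot
  tu := Pol.tu_lt N.top N.bot
  lo := P.lo u
  hi := P.hi t
  a1 := N.a1
  a2 := N.a2
  far1 := N.far1
  far2 := N.far2

theorem Near.fan_in (N : Near P t u a) (v : P.ι) (x : ℝ) : N.fan.In v x ↔ P.Mn v x :=
  Pol.fan0_in N.ray v x

theorem Near.fan_pos (N : Near P t u a) (x : ℝ) : N.fan.Pos x ↔ ∀ v, 0 < P.h v x := by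
  constructor
  · rintro ⟨z, h1, h2⟩ v
    rw [← P.h_add v x z]
    exact Pol.h_pos N.top N.bot v h1 h2
  · intro h
    obtain ⟨m, hm, -⟩ := existsUnique_add_zsmul_mem_Ico (two_pi_pos) x (P.θ t - π / 2)
    simp only [zsmul_eq_mul, Set.mem_Ico] at hm
    have h1 : x + m * (2 * π) = x + 2 * π * m := by ring
    rw [h1] at hm
    have h2 := h t
    have h3 := h u
    rw [← P.h_add t x m] at h2
    rw [← P.h_add u x m] at h3
    refine ⟨m, ?_, ?_⟩
    · change P.θ t - π / 2 < _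
      refine lt_of_le_of_ne hm.1 fun h4 => ?_
      rw [← h4] at h2
      unfold Pol.h at h2
      rw [show P.θ t - π / 2 - P.θ t = -(π / 2) by ring, _root_.Real.cos_neg, cos_pi_div_two,
        mul_zero] at h2
      exact lt_irrefl _ h2
    · change _ < P.θ u + π / 2
      generalize x + 2 * π * m = y at hm h2 h3
      have htu := Pol.tu_lt N.top N.bot
      by_contra hcon
      push Not at hcon
      have h5 : y - P.θ t < π / 2 := by
        by_contra hcon2
        push Not at hcon2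
        have := cos_nonpos_of_pi_div_two_le_of_le hcon2 (by linarith)
        unfold Pol.h at h2
        nlinarith [P.pos t]
      have h6 : cos (y - P.θ u) ≤ 0 :=
        cos_nonpos_of_pi_div_two_le_of_le (by linarith) (by linarith [P.hi t, P.lo u])
      unfold Pol.h at h3
      nlinarith [P.pos u]

end Pool.Agent.Lib.MP_4e7804_co.Last
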