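import Pool.Agent.Lib.MP_4e7804_co.Last.Fan

/-! Polygons in an open half plane, in polar coordinates, and their fans. -/

set_option autoImplicit false

namespace Pool.Agent.Lib.MP_4e7804_co.Last

open Real Filter Topology

/-- A polygon in an open half plane: vertices `ρ v (cos (θ v), sin (θ v))` in strictly convex
position (every vertex is the strict minimizer of some direction `x`). -/
structure Pol where
  ι : Type
  fin : Finite ι
  ρ : ι → ℝ
  θ : ι → ℝ
  pos : ∀ v, 0 < ρ v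
  lo : ∀ v, -(π / 2) < θ v
  hi : ∀ v, θ v < π / 2
  inj : ∀ v w, θ v = θ w → v = w
  nontriv : ∃ v w : ι, v ≠ w
  conv : ∀ v, ∃ x, ∀ w, w ≠ v → ρ v * cos (x - θ v) < ρ w * cos (x - θ w)

/-- The value of the vertex `v` in the direction `x`. -/
noncomputable def Pol.h (P : Pol) (v : P.ι) (x : ℝ) : ℝ := P.ρ v * cos (x - P.θ v)

/-- `v` is the strict minimizer in the direction `x`. -/
def Pol.Mn (P : Pol) (v : P.ι) (x : ℝ) : Prop := ∀ w, w ≠ v → P.h v x < P.h w x

theorem trig3 (x y z t : ℝ) :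
    sin (y - x) * cos (z - t) = sin (y - z) * cos (x - t) + sin (z - x) * cos (y - t) := by
  simp only [sin_sub, cos_sub]
  ring

theorem Pol.h_lin (P : Pol) (v : P.ι) (x y z : ℝ) :
    sin (y - x) * P.h v z = sin (y - z) * P.h v x + sin (z - x) * P.h v y := by
  have := trig3 x y z (P.θ v)
  unfold Pol.h
  linear_combination P.ρ v * this

theorem trig4 (x y p q : ℝ) :
    cos (y - p) * cos (x - q) - cos (y - q) * cos (x - p) = sin (x - y) * sin (q - p) := by
  simp only [sin_sub, cos_sub]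
  ring

theorem Pol.h_det (P : Pol) (p q : P.ι) (x y : ℝ) :
    P.h p y * P.h q x - P.h q y * P.h p x =
      P.ρ p * P.ρ q * (sin (x - y) * sin (P.θ q - P.θ p)) := by
  rw [← trig4]
  unfold Pol.h
  ring

theorem trig5 (x s t u : ℝ) :
    sin (t - u) * cos (x - s) = sin (s - u) * cos (x - t) + sin (t - s) * cos (x - u) := by
  simp only [sin_sub, cos_sub]
  ring

theorem Pol.h_add (P : Pol) (v : P.ι) (x : ℝ) (n : ℤ) : P.h v (x + 2 * π * n) = P.h v x := by
  unfold Pol.h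
  rw [show x + 2 * π * n - P.θ v = (x - P.θ v) + n * (2 * π) by ring, cos_add_int_mul_two_pi]

theorem Pol.mn_add (P : Pol) (v : P.ι) (x : ℝ) (n : ℤ) :
    P.Mn v (x + 2 * π * n) ↔ P.Mn v x := by
  unfold Pol.Mn
  simp only [P.h_add]

theorem Pol.h_add_pi (P : Pol) (v : P.ι) (x : ℝ) : P.h v (x + π) = -P.h v x := by
  unfold Pol.h
  rw [show x + π - P.θ v = (x - P.θ v) + π by ring, cos_add_pi]
  ring

theorem Pol.lt_left (P : Pol) (v w : P.ι) {x y z : ℝ} (h1 : x < z) (h2 : z < y)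
    (h3 : y < x + π) (hx : P.h v x < P.h w x) (hy : P.h v y ≤ P.h w y) : P.h v z < P.h w z := by
  have e1 := P.h_lin v x y z
  have e2 := P.h_lin w x y z
  have s1 : 0 < sin (y - x) := sin_pos_of_pos_of_lt_pi (by linarith) (by linarith)
  have s2 : 0 < sin (y - z) := sin_pos_of_pos_of_lt_pi (by linarith) (by linarith)
  have s3 : 0 < sin (z - x) := sin_pos_of_pos_of_lt_pi (by linarith) (by linarith)
  have h4 : sin (y - x) * P.h v z < sin (y - x) * P.h w z := by
    rw [e1, e2]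
    nlinarith [mul_lt_mul_of_pos_left hx s2, mul_le_mul_of_nonneg_left hy s3.le]
  exact lt_of_mul_lt_mul_left h4 s1.le

theorem Pol.lt_right (P : Pol) (v w : P.ι) {x y z : ℝ} (h1 : x < z) (h2 : z < y)
    (h3 : y < x + π) (hx : P.h v x ≤ P.h w x) (hy : P.h v y < P.h w y) : P.h v z < P.h w z := by
  have e1 := P.h_lin v x y z
  have e2 := P.h_lin w x y z
  have s1 : 0 < sin (y - x) := sin_pos_of_pos_of_lt_pi (by linarith) (by linarith)
  have s2 : 0 < sin (y - z) := sin_pos_of_pos_of_lt_pi (by linarith) (by linarith)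
  have s3 : 0 < sin (z - x) := sin_pos_of_pos_of_lt_pi (by linarith) (by linarith)
  have h4 : sin (y - x) * P.h v z < sin (y - x) * P.h w z := by
    rw [e1, e2]
    nlinarith [mul_le_mul_of_nonneg_left hx s2.le, mul_lt_mul_of_pos_left hy s3]
  exact lt_of_mul_lt_mul_left h4 s1.le

theorem Pol.Mn.between {P : Pol} {v : P.ι} {x y z : ℝ} (hx : P.Mn v x) (hy : P.Mn v y)
    (h1 : x < z) (h2 : z < y) (h3 : y < x + π) : P.Mn v z :=
  fun w hw => P.lt_left v w h1 h2 h3 (hx w hw) (hy w hw).le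

theorem Pol.exists_ne (P : Pol) (v : P.ι) : ∃ w, w ≠ v := by
  obtain ⟨a, b, hab⟩ := P.nontriv
  by_cases h : a = v
  · exact ⟨b, fun hb => hab (h.trans hb.symm)⟩
  · exact ⟨a, h⟩

theorem Pol.Mn.not_pi {P : Pol} {v : P.ι} {x : ℝ} (hx : P.Mn v x) : ¬ P.Mn v (x + π) := by
  intro h
  obtain ⟨w, hw⟩ := P.exists_ne v
  have h1 := hx w hw
  have h2 := h w hw
  rw [P.h_add_pi, P.h_add_pi] at h2
  linarith

theorem Pol.Mn.len {P : Pol} {v : P.ι} {a x y : ℝ} (ha : ¬ P.Mn v a) (hx : P.Mn v x)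
    (hy : P.Mn v y) (h1 : a < x) (h2 : y < a + 2 * π) : y < x + π := by
  by_contra hcon
  push Not at hcon
  rcases hcon.eq_or_lt with h | h
  · rw [← h] at hy
    exact hx.not_pi hy
  · apply ha
    have hx' := (P.mn_add v x 1).2 hx
    have := hy.between hx' (z := a + 2 * π * ((1 : ℤ) : ℝ)) (by push_cast; linarith)
      (by push_cast; linarith) (by push_cast; linarith)
    exact (P.mn_add v a 1).1 this

theorem Pol.h_cont (P : Pol) (v : P.ι) : Continuous (P.h v) := by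
  unfold Pol.h
  fun_prop

theorem Pol.mn_open (P : Pol) (v : P.ι) : IsOpen {x | P.Mn v x} := by
  haveI := P.fin
  have : {x | P.Mn v x} = ⋂ w, {x | w ≠ v → P.h v x < P.h w x} := by
    ext x
    simp [Pol.Mn]
  rw [this]
  refine isOpen_iInter_of_finite fun w => ?_
  by_cases hw : w = v
  · simp [hw]
  · simpa [hw] using isOpen_lt (P.h_cont v) (P.h_cont w)

theorem Pol.Mn.ball {P : Pol} {v : P.ι} {x : ℝ} (hx : P.Mn v x) :
    ∃ ε > 0, ∀ y, x - ε < y → y < x + ε → P.Mn v y := by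
  obtain ⟨ε, hε, h⟩ := Metric.isOpen_iff.1 (P.mn_open v) x hx
  refine ⟨ε, hε, fun y h1 h2 => h ?_⟩
  rw [Metric.mem_ball, Real.dist_eq, abs_lt]
  constructor <;> linarith

theorem Pol.Mn.unique {P : Pol} {v w : P.ι} {x : ℝ} (h1 : P.Mn v x) (h2 : P.Mn w x) : v = w := by
  by_contra hne
  have := h1 w (Ne.symm hne)
  have := h2 v hne
  linarith

/-- The mirror image. -/
noncomputable def Pol.mirror (P : Pol) : Pol where
  ι := P.ι
  fin := P.fin
  ρ := P.ρ
  θ v := -P.θ v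
  pos := P.pos
  lo v := by
    have := P.hi v
    linarith
  hi v := by
    have := P.lo v
    linarith
  inj v w h := P.inj v w (by linarith)
  nontriv := P.nontriv
  conv v := by
    obtain ⟨x, hx⟩ := P.conv v
    refine ⟨-x, fun w hw => ?_⟩
    have := hx w hw
    rw [show -x - -P.θ v = -(x - P.θ v) by ring, show -x - -P.θ w = -(x - P.θ w) by ring,
      cos_neg, cos_neg]
    exact this

theorem Pol.mirror_h (P : Pol) (v : P.ι) (x : ℝ) : P.mirror.h v x = P.h v (-x) := by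
  change P.ρ v * cos (x - -P.θ v) = P.ρ v * cos (-x - P.θ v)
  rw [show x - -P.θ v = -(-x - P.θ v) by ring, cos_neg]

theorem Pol.mirror_mn (P : Pol) (v : P.ι) (x : ℝ) : P.mirror.Mn v x ↔ P.Mn v (-x) := by
  constructor
  · intro h w hw
    have := h w hw
    rwa [P.mirror_h, P.mirror_h] at this
  · intro h w hw
    have := h w hw
    rwa [P.mirror_h, P.mirror_h]

theorem Pol.h_rot (P : Pol) (v : P.ι) (x y : ℝ) :
    P.h v y = cos (y - x) * P.h v x + sin (y - x) * (-(P.ρ v * sin (x - P.θ v))) := by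
  unfold Pol.h
  rw [show y - P.θ v = (y - x) + (x - P.θ v) by ring, cos_add]
  ring

theorem Pol.eq_of (P : Pol) (v w : P.ι) (x : ℝ) (h1 : P.h v x = P.h w x)
    (h2 : P.ρ v * sin (x - P.θ v) = P.ρ w * sin (x - P.θ w)) : v = w := by
  unfold Pol.h at h1
  have p1 := P.pos v
  have p2 := P.pos w
  have h3 : P.ρ v = P.ρ w := by
    have e1 := sin_sq_add_cos_sq (x - P.θ v)
    have e2 := sin_sq_add_cos_sq (x - P.θ w)
    have e3 : P.ρ v ^ 2 = P.ρ w ^ 2 := by
      calc P.ρ v ^ 2 = (P.ρ v * sin (x - P.θ v)) ^ 2 + (P.ρ v * cos (x - P.θ v)) ^ 2 := by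
            rw [mul_pow, mul_pow, ← mul_add, e1, mul_one]
        _ = (P.ρ w * sin (x - P.θ w)) ^ 2 + (P.ρ w * cos (x - P.θ w)) ^ 2 := by rw [h1, h2]
        _ = P.ρ w ^ 2 := by rw [mul_pow, mul_pow, ← mul_add, e2, mul_one]
    nlinarith
  rw [h3] at h1 h2
  have h4 := mul_left_cancel₀ p2.ne' h1
  have h5 := mul_left_cancel₀ p2.ne' h2
  have h6 : sin (P.θ v - P.θ w) = 0 := by
    rw [show P.θ v - P.θ w = (x - P.θ w) - (x - P.θ v) by ring, sin_sub, h4, h5]
    ring
  have h7 := (sin_eq_zero_iff_of_lt_of_lt (by linarith [P.lo v, P.hi w])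
    (by linarith [P.hi v, P.lo w])).1 h6
  exact P.inj v w (by linarith)

/-- Just to the right of `x` there is a strict minimizer. -/
theorem Pol.exists_right (P : Pol) (x : ℝ) : ∃ v, ∃ ε > 0, ∀ y, x < y → y < x + ε → P.Mn v y := by
  haveI := P.fin
  haveI : Nonempty P.ι := ⟨P.nontriv.choose⟩
  obtain ⟨v, hv⟩ := Finite.exists_min
    (fun v : P.ι => toLex (P.h v x, -(P.ρ v * sin (x - P.θ v))))
  have key : ∀ w, ∀ᶠ y in 𝓝[>] x, w ≠ v → P.h v y < P.h w y := by
    intro w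
    by_cases hw : w = v
    · exact Eventually.of_forall fun y hy => absurd hw hy
    have h1 := hv w
    rw [Prod.Lex.toLex_le_toLex] at h1
    rcases h1 with h1 | ⟨h1, h2⟩
    · have h3 : ∀ᶠ y in 𝓝 x, P.h v y < P.h w y :=
        (P.h_cont v).continuousAt.eventually_lt (P.h_cont w).continuousAt h1
      filter_upwards [nhdsWithin_le_nhds h3] with y hy _ using hy
    · have h3 : -(P.ρ v * sin (x - P.θ v)) < -(P.ρ w * sin (x - P.θ w)) := by
        refine lt_of_le_of_ne h2 fun h4 => hw ?_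
        exact (P.eq_of v w x h1 (neg_injective h4)).symm
      have h4 : ∀ᶠ y in 𝓝[>] x, y < x + π :=
        nhdsWithin_le_nhds (Iio_mem_nhds (by linarith [pi_pos]))
      filter_upwards [h4, self_mem_nhdsWithin] with y hy hy2 _
      have hy2' : x < y := hy2
      rw [P.h_rot v x y, P.h_rot w x y]
      have h1' : P.h v x = P.h w x := h1
      have h5 : 0 < sin (y - x) := sin_pos_of_pos_of_lt_pi (by linarith) (by linarith)
      rw [h1']
      have := mul_lt_mul_of_pos_left h3 h5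
      linarith
  have h2 := (eventually_all (l := 𝓝[>] x)).2 key
  obtain ⟨b, hb, h3⟩ := mem_nhdsGT_iff_exists_Ioo_subset.1 h2
  refine ⟨v, b - x, by simpa using hb, fun y h4 h5 w hw => ?_⟩
  exact h3 (show y ∈ Set.Ioo x b from ⟨h4, by linarith⟩) w hw

/-- Just to the left of `x` there is a strict minimizer. -/
theorem Pol.exists_left (P : Pol) (x : ℝ) : ∃ v, ∃ ε > 0, ∀ y, x - ε < y → y < x → P.Mn v y := by
  obtain ⟨v, ε, hε, h⟩ := P.mirror.exists_right (-x)
  refine ⟨v, ε, hε, fun y h1 h2 => ?_⟩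
  have := h (-y) (by linarith) (by linarith)
  rwa [P.mirror_mn, neg_neg] at this

/-- The arc of `v` in the window of `a`. -/
def Pol.S (P : Pol) (a : ℝ) (v : P.ι) : Set ℝ := {x | a < x ∧ x < a + 2 * π ∧ P.Mn v x}

section fan

variable {P : Pol} {a : ℝ}

theorem Pol.S_nonempty (ha : ∀ v, ¬ P.Mn v a) (v : P.ι) : (P.S a v).Nonempty := by
  obtain ⟨x, hx⟩ := P.conv v
  have hx : P.Mn v x := hx
  obtain ⟨m, hm, -⟩ := existsUnique_add_zsmul_mem_Ico (two_pi_pos) x a
  simp only [zsmul_eq_mul, Set.mem_Ico] at hm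
  have h1 : x + 2 * π * m = x + m * (2 * π) := by ring
  have h2 := (P.mn_add v x m).2 hx
  rw [h1] at h2
  refine ⟨x + m * (2 * π), lt_of_le_of_ne hm.1 ?_, hm.2, h2⟩
  intro h3
  rw [← h3] at h2
  exact ha v h2

theorem Pol.S_bddBelow (v : P.ι) : BddBelow (P.S a v) := ⟨a, fun x hx => hx.1.le⟩

theorem Pol.S_bddAbove (v : P.ι) : BddAbove (P.S a v) := ⟨a + 2 * π, fun x hx => hx.2.1.le⟩

theorem Pol.S_mem (ha : ∀ v, ¬ P.Mn v a) {v : P.ι} {x y z : ℝ} (hx : x ∈ P.S a v)
    (hy : y ∈ P.S a v) (h1 : x < z) (h2 : z < y) : z ∈ P.S a v :=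
  ⟨hx.1.trans h1, h2.trans hy.2.1,
    hx.2.2.between hy.2.2 h1 h2 (Pol.Mn.len (ha v) hx.2.2 hy.2.2 hx.1 hy.2.1)⟩

theorem Pol.S_gt {v : P.ι} {x : ℝ} (hx : x ∈ P.S a v) : sInf (P.S a v) < x := by
  obtain ⟨ε, hε, h⟩ := hx.2.2.ball
  obtain ⟨y, h1, h2⟩ := exists_between (show max (x - ε) a < x from
    max_lt (by linarith) hx.1)
  rw [max_lt_iff] at h1
  exact (csInf_le (Pol.S_bddBelow v) ⟨h1.2, by linarith [hx.2.1], h y h1.1 (by linarith)⟩).trans_lt h2

theorem Pol.S_lt {v : P.ι} {x : ℝ} (hx : x ∈ P.S a v) : x < sSup (P.S a v) := by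
  obtain ⟨ε, hε, h⟩ := hx.2.2.ball
  obtain ⟨y, h1, h2⟩ := exists_between (show x < min (x + ε) (a + 2 * π) from
    lt_min (by linarith) hx.2.1)
  rw [lt_min_iff] at h2
  exact h1.trans_le (le_csSup (Pol.S_bddAbove v)
    ⟨by linarith [hx.1], h2.2, h y (by linarith) h2.1⟩)

theorem Pol.S_of (ha : ∀ v, ¬ P.Mn v a) {v : P.ι} {x : ℝ} (h1 : sInf (P.S a v) < x)
    (h2 : x < sSup (P.S a v)) : x ∈ P.S a v := by
  obtain ⟨y, hy, hy2⟩ := exists_lt_of_csInf_lt (Pol.S_nonempty ha v) h1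
  obtain ⟨z, hz, hz2⟩ := exists_lt_of_lt_csSup (Pol.S_nonempty ha v) h2
  exact Pol.S_mem ha hy hz hy2 hz2

/-- The fan of a polygon, `a` a ray. -/
noncomputable def Pol.fan0 (P : Pol) (a : ℝ) (ha : ∀ v, ¬ P.Mn v a) : Fan0 where
  ι := P.ι
  fin := P.fin
  l v := sInf (P.S a v)
  r v := sSup (P.S a v)
  a := a
  lr v := by
    obtain ⟨x, hx⟩ := Pol.S_nonempty ha v
    exact (Pol.S_gt hx).trans (Pol.S_lt hx)
  len v := by
    refine csSup_le (Pol.S_nonempty ha v) fun y hy => ?_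
    have : y - π ≤ sInf (P.S a v) := le_csInf (Pol.S_nonempty ha v) fun x hx => by
      have := Pol.Mn.len (ha v) hx.2.2 hy.2.2 hx.1 hy.2.1
      linarith
    linarith
  al v := le_csInf (Pol.S_nonempty ha v) fun x hx => hx.1.le
  ra v := csSup_le (Pol.S_nonempty ha v) fun x hx => hx.2.1.le
  dis v w hvw := by
    by_contra hcon
    push Not at hcon
    have e1 : sInf (P.S a v) < sSup (P.S a v) := by
      obtain ⟨x, hx⟩ := Pol.S_nonempty ha v
      exact (Pol.S_gt hx).trans (Pol.S_lt hx)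
    have e2 : sInf (P.S a w) < sSup (P.S a w) := by
      obtain ⟨x, hx⟩ := Pol.S_nonempty ha w
      exact (Pol.S_gt hx).trans (Pol.S_lt hx)
    obtain ⟨x, h1, h2⟩ := exists_between
      (show max (sInf (P.S a v)) (sInf (P.S a w)) < min (sSup (P.S a v)) (sSup (P.S a w)) from
        max_lt (lt_min e1 hcon.2) (lt_min hcon.1 e2))
    rw [max_lt_iff] at h1
    rw [lt_min_iff] at h2
    exact hvw ((Pol.S_of ha h1.1 h2.1).2.2.unique (Pol.S_of ha h1.2 h2.2).2.2)
  cov x h1 h2 := by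
    obtain ⟨v, ε, hε, h⟩ := P.exists_right x
    refine ⟨v, ?_, ?_⟩
    · by_contra hcon
      push Not at hcon
      obtain ⟨y, h3, h4⟩ := exists_between
        (show x < min (sInf (P.S a v)) (min (x + ε) (a + 2 * π)) from
          lt_min hcon (lt_min (by linarith) h2))
      rw [lt_min_iff, lt_min_iff] at h4
      have := csInf_le (Pol.S_bddBelow v) (show y ∈ P.S a v from
        ⟨by linarith, h4.2.2, h y h3 h4.2.1⟩)
      linarith [h4.1]
    · obtain ⟨y, h3, h4⟩ := exists_between (show x < min (x + ε) (a + 2 * π) from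
          lt_min (by linarith) h2)
      rw [lt_min_iff] at h4
      exact h3.trans_le (le_csSup (Pol.S_bddAbove v) (show y ∈ P.S a v from
        ⟨by linarith, h4.2, h y h3 h4.1⟩))
  cov' x h1 h2 := by
    obtain ⟨v, ε, hε, h⟩ := P.exists_left x
    refine ⟨v, ?_, ?_⟩
    · obtain ⟨y, h3, h4⟩ := exists_between (show max (x - ε) a < x from
          max_lt (by linarith) h1)
      rw [max_lt_iff] at h3
      exact (csInf_le (Pol.S_bddBelow v) (show y ∈ P.S a v from
        ⟨h3.2, by linarith, h y h3.1 h4⟩)).trans_lt h4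
    · by_contra hcon
      push Not at hcon
      obtain ⟨y, h3, h4⟩ := exists_between
        (show max (sSup (P.S a v)) (max (x - ε) a) < x from
          max_lt hcon (max_lt (by linarith) h1))
      rw [max_lt_iff, max_lt_iff] at h3
      have := le_csSup (Pol.S_bddAbove v) (show y ∈ P.S a v from
        ⟨h3.2.2, by linarith, h y h3.2.1 h4⟩)
      linarith [h3.1]

theorem Pol.fan0_in (ha : ∀ v, ¬ P.Mn v a) (v : P.ι) (x : ℝ) :
    (P.fan0 a ha).In v x ↔ P.Mn v x := by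
  constructor
  · rintro ⟨z, h1, h2⟩
    exact (P.mn_add v x z).1 (Pol.S_of ha h1 h2).2.2
  · intro hx
    obtain ⟨m, hm, -⟩ := existsUnique_add_zsmul_mem_Ico (two_pi_pos) x a
    simp only [zsmul_eq_mul, Set.mem_Ico] at hm
    have h1 : x + 2 * π * m = x + m * (2 * π) := by ring
    have h2 := (P.mn_add v x m).2 hx
    have h3 : x + 2 * π * m ∈ P.S a v := by
      refine ⟨lt_of_le_of_ne (by linarith [hm.1]) ?_, by linarith [hm.2], h2⟩
      intro h3
      rw [← h3] at h2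
      exact ha v h2
    exact ⟨m, Pol.S_gt h3, Pol.S_lt h3⟩

end fan

end Pool.Agent.Lib.MP_4e7804_co.Last
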